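import Pool.Agent.Lib.PerE.Defs

set_option autoImplicit false

/-!
# First properties of `Per`

`kill`: by `h.per`, `(ad x) ^ (p ^ m) = ad x`, `0 < m`; by induction `(ad x) ^ (p ^ (m * j)) = ad x` for all `j` (`pow_mul`);
take `j` with `k ≤ p ^ (m * j)` (`j = k` is enough: `k < 2 ^ k ≤ p ^ (m * k)`), so `ad x y = (ad x) ^ (big) y = 0`.

`alg_of`: `x` with `ad x ≠ 0`; `(ad x) ^ (p ^ m) = ad x`, `(ad (a • x)) ^ (p ^ m') = ad (a • x)`; with `N = m * m'` both
hold for `N`, so `a ^ (p ^ N) • ad x = a • ad x`.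

`per_cent`: for `x` in the centraliser `H` of `v`, `(ad x) ^ p = ad y` in `L`; `⁅y, v⁆ = (ad x) ^ p v = 0` as `⁅x, v⁆ = 0`,
so `y ∈ H`; powers of `ad x` on `H` are restrictions of powers of `ad x` on `L`.

`per_quot`, `ctr0_quot`: the quotient map is a surjective morphism of Lie algebras; if `⁅x, y⁆` is central for all `y`
then `⁅x, ⁅x, y⁆⁆ = 0`, so `⁅x, y⁆ = 0` by `kill` (`k = 2`).
-/

namespace PerE

open Module

universe u v

theorem Base_iter {R : Type*} [Monoid R] (a : R) (q m : ℕ) (h : a ^ (q ^ m) = a) (j : ℕ) :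
    a ^ (q ^ (m * j)) = a := by
  induction j with
  | zero => simp
  | succ j ih => rw [Nat.mul_succ, pow_add, pow_mul, ih, h]

variable {p : ℕ} [Fact p.Prime] {F : Type u} [Field F] {L : Type v} [LieRing L] [LieAlgebra F L]

theorem kill (h : Per p F L) (x y : L) (k : ℕ) (hk : ((LieAlgebra.ad F L x) ^ k) y = 0) :
    ⁅x, y⁆ = 0 := by
  obtain ⟨m, hm, hpm⟩ := h.per x
  have hj := Base_iter (LieAlgebra.ad F L x) p m hpm k
  have hp : 2 ≤ p := (Fact.out : p.Prime).two_le
  have hle : k ≤ p ^ (m * k) := by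
    calc k ≤ 2 ^ k := (Nat.lt_two_pow_self).le
      _ ≤ p ^ k := Nat.pow_le_pow_left hp k
      _ ≤ p ^ (m * k) := Nat.pow_le_pow_right (by omega) (Nat.le_mul_of_pos_left k hm)
  have hz : (LieAlgebra.ad F L x) y = 0 := by
    rw [← hj, ← Nat.sub_add_cancel hle, pow_add, Module.End.mul_apply, hk, map_zero]
  simpa using hz

theorem alg_of (h : Per p F L) (x : L) (hx : LieAlgebra.ad F L x ≠ 0) : Alg p F := by
  intro a
  obtain ⟨m, hm, hpm⟩ := h.per x
  obtain ⟨m', hm', hpm'⟩ := h.per (a • x)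
  refine ⟨m * m', Nat.mul_pos hm hm', ?_⟩
  have h1 := Base_iter (LieAlgebra.ad F L x) p m hpm m'
  have h2 := Base_iter (LieAlgebra.ad F L (a • x)) p m' hpm' m
  rw [mul_comm m' m, map_smul, smul_pow, h1] at h2
  have h3 : (a ^ (p ^ (m * m')) - a) • LieAlgebra.ad F L x = 0 := by
    rw [sub_smul, h2, sub_self]
  rcases smul_eq_zero.mp h3 with h4 | h4
  · exact sub_eq_zero.mp h4
  · exact absurd h4 hx

theorem Base_coe_pow (v : L) (x : centL F v) (k : ℕ) (z : centL F v) :
    ((((LieAlgebra.ad F (centL F v) x) ^ k) z : centL F v) : L)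
      = ((LieAlgebra.ad F L (x : L)) ^ k) (z : L) := by
  induction k generalizing z with
  | zero => simp
  | succ k ih =>
    rw [pow_succ, pow_succ, Module.End.mul_apply, Module.End.mul_apply, ih]
    simp

theorem per_cent (h : Per p F L) (v : L) : Per p F (centL F v) := by
  have hp : 0 < p := (Fact.out : p.Prime).pos
  constructor
  · intro x
    obtain ⟨y, hy⟩ := h.cl (x : L)
    have hxv : ⁅(x : L), v⁆ = 0 := by
      have := mem_centL.mp x.2
      rw [← lie_skew, this, neg_zero]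
    have hyv : ⁅y, v⁆ = 0 := by
      have h1 : (LieAlgebra.ad F L y) v = 0 := by
        rw [← hy]
        obtain ⟨q, rfl⟩ : ∃ q, p = q + 1 := ⟨p - 1, by omega⟩
        rw [pow_succ, Module.End.mul_apply, LieAlgebra.ad_apply, hxv, map_zero]
      simpa using h1
    have hvy : ⁅v, y⁆ = 0 := by rw [← lie_skew, hyv, neg_zero]
    refine ⟨⟨y, mem_centL.mpr hvy⟩, ?_⟩
    apply LinearMap.ext
    intro z
    apply Subtype.ext
    rw [Base_coe_pow, hy]
    simp
  · intro x
    obtain ⟨m, hm, hpm⟩ := h.per (x : L)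
    refine ⟨m, hm, ?_⟩
    apply LinearMap.ext
    intro z
    apply Subtype.ext
    rw [Base_coe_pow, hpm]
    simp

theorem Base_mk_pow (x : L) (k : ℕ) (z : L) :
    ((LieAlgebra.ad F (L ⧸ LieAlgebra.center F L)
        (LieSubmodule.Quotient.mk (N := LieAlgebra.center F L) x)) ^ k)
        (LieSubmodule.Quotient.mk (N := LieAlgebra.center F L) z)
      = LieSubmodule.Quotient.mk (N := LieAlgebra.center F L) (((LieAlgebra.ad F L x) ^ k) z) := by
  induction k generalizing z with
  | zero => simp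
  | succ k ih =>
    rw [pow_succ, pow_succ, Module.End.mul_apply, Module.End.mul_apply, LieAlgebra.ad_apply,
      LieAlgebra.ad_apply, ← LieSubmodule.Quotient.mk_bracket, ih]

theorem Base_surj (z : L ⧸ LieAlgebra.center F L) :
    ∃ w : L, LieSubmodule.Quotient.mk (N := LieAlgebra.center F L) w = z :=
  LieSubmodule.Quotient.surjective_mk' _ z

theorem per_quot (h : Per p F L) : Per p F (L ⧸ LieAlgebra.center F L) := by
  constructor
  · intro x
    obtain ⟨x, rfl⟩ := Base_surj (F := F) x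
    obtain ⟨y, hy⟩ := h.cl x
    refine ⟨LieSubmodule.Quotient.mk (N := LieAlgebra.center F L) y, ?_⟩
    apply LinearMap.ext
    intro z
    obtain ⟨z, rfl⟩ := Base_surj (F := F) z
    rw [Base_mk_pow, hy, LieAlgebra.ad_apply, LieAlgebra.ad_apply, LieSubmodule.Quotient.mk_bracket]
  · intro x
    obtain ⟨x, rfl⟩ := Base_surj (F := F) x
    obtain ⟨m, hm, hpm⟩ := h.per x
    refine ⟨m, hm, ?_⟩
    apply LinearMap.ext
    intro z
    obtain ⟨z, rfl⟩ := Base_surj (F := F) z
    rw [Base_mk_pow, hpm, LieAlgebra.ad_apply, LieAlgebra.ad_apply, LieSubmodule.Quotient.mk_bracket]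

theorem ctr0_quot (h : Per p F L) : Ctr0 (L ⧸ LieAlgebra.center F L) := by
  intro x hx
  obtain ⟨x, rfl⟩ := Base_surj (F := F) x
  have key : ∀ y : L, ⁅x, y⁆ = 0 := by
    intro y
    have h1 := hx (LieSubmodule.Quotient.mk (N := LieAlgebra.center F L) y)
    rw [← LieSubmodule.Quotient.mk_bracket] at h1
    have h2 : ⁅x, y⁆ ∈ LieAlgebra.center F L := by
      exact (LieSubmodule.Quotient.mk_eq_zero (N := LieAlgebra.center F L)).mp h1
    have h3 : ⁅x, ⁅x, y⁆⁆ = 0 := by
      exact (LieModule.mem_maxTrivSubmodule F L L ⁅x, y⁆).mp h2 x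
    apply kill h x y 2
    rw [pow_two, Module.End.mul_apply, LieAlgebra.ad_apply, LieAlgebra.ad_apply]
    exact h3
  refine (LieSubmodule.Quotient.mk_eq_zero (N := LieAlgebra.center F L)).mpr ?_
  refine (LieModule.mem_maxTrivSubmodule F L L x).mpr ?_
  intro z
  rw [← lie_skew, key z, neg_zero]

end PerE
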