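import Pool.Agent.Lib.PerE.Defs

set_option autoImplicit false

/-!
# Base change of Lie algebras: small facts

`ctr0_bc`: `b : Basis _ F A`; `A ⊗ L ≃ (index →₀ L)`; `⁅z, 1 ⊗ y⁆ = 0` gives `⁅z i, y⁆ = 0` for all coordinates.

`ad_bcMap`: `bcMap π` is onto and compatible with brackets; `⁅bcMap g, bcMap w⁆ = bcMap (⁅g, w⁆) = bcMap ((ad x) ^ k w)
= (ad (bcMap x)) ^ k (bcMap w)`.

`ad_sum_pow`: `ad (∑ j, c j ⊗ z j) = ∑ j, c j • baseChange (ad (z j))`, the summands commute, characteristic `p`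
(`add_pow_char_pow_of_commute` or the like, induction on the finite sum), so the `p ^ i`-th power is
`∑ j, c j ^ (p ^ i) • baseChange ((ad (z j)) ^ (p ^ i))`.

`ad_red_pow`: `red ε (((ad y) ^ e) z) = ((ad (red ε y)) ^ e) (red ε z)`, by induction from
`red ε ⁅y, z⁆ = ⁅red ε y, red ε z⁆`.
-/

namespace PerE

open Module
open scoped TensorProduct

universe u v w w'

variable {F : Type u} [Field F] {L : Type v} [LieRing L] [LieAlgebra F L]

theorem ctr0_bc (hZ : Ctr0 L) (A : Type w) [CommRing A] [Algebra F A] : Ctr0 (A ⊗[F] L) := by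
  classical
  intro z hz
  let b := Basis.ofVectorSpace F A
  have key : ∀ (z : A ⊗[F] L) (y : L) (i), TensorProduct.equivFinsuppOfBasisLeft b ⁅z, (1 : A) ⊗ₜ[F] y⁆ i =
      ⁅TensorProduct.equivFinsuppOfBasisLeft (N := L) b z i, y⁆ := by
    intro z y i
    induction z using TensorProduct.induction_on with
    | zero => simp
    | tmul a x =>
      rw [LieAlgebra.ExtendScalars.bracket_tmul, mul_one,
        TensorProduct.equivFinsuppOfBasisLeft_apply_tmul_apply,
        TensorProduct.equivFinsuppOfBasisLeft_apply_tmul_apply, smul_lie]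
    | add z₁ z₂ h₁ h₂ =>
      rw [add_lie, map_add, map_add, Finsupp.add_apply, Finsupp.add_apply, add_lie, h₁, h₂]
  have h0 : TensorProduct.equivFinsuppOfBasisLeft (N := L) b z = 0 := by
    ext i
    rw [Finsupp.zero_apply]
    refine hZ _ fun y => ?_
    rw [← key, hz, map_zero, Finsupp.zero_apply]
  exact (LinearEquiv.map_eq_zero_iff _).1 h0

theorem bcMap_lie {A : Type w} {B : Type w'} [CommRing A] [Algebra F A] [CommRing B]
    [Algebra F B] (π : A →ₐ[F] B) (y z : A ⊗[F] L) :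
    bcMap π ⁅y, z⁆ = ⁅bcMap π y, bcMap π z⁆ := by
  induction y using TensorProduct.induction_on with
  | zero => simp
  | tmul a x =>
    induction z using TensorProduct.induction_on with
    | zero => simp
    | tmul a' x' =>
      rw [LieAlgebra.ExtendScalars.bracket_tmul, bcMap_tmul, bcMap_tmul, bcMap_tmul,
        LieAlgebra.ExtendScalars.bracket_tmul, map_mul]
    | add z₁ z₂ h₁ h₂ => rw [lie_add, map_add, map_add, lie_add, h₁, h₂]
  | add z₁ z₂ h₁ h₂ => rw [add_lie, map_add, map_add, add_lie, h₁, h₂]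

theorem ad_bcMap {A : Type w} {B : Type w'} [CommRing A] [Algebra F A] [CommRing B]
    [Algebra F B] (π : A →ₐ[F] B) (hπ : Function.Surjective π) (g x : A ⊗[F] L) (k : ℕ)
    (h : LieAlgebra.ad A (A ⊗[F] L) g = (LieAlgebra.ad A (A ⊗[F] L) x) ^ k) :
    LieAlgebra.ad B (B ⊗[F] L) (bcMap π g) = (LieAlgebra.ad B (B ⊗[F] L) (bcMap π x)) ^ k := by
  have hs : Function.Surjective (bcMap (L := L) π) :=
    LinearMap.rTensor_surjective L hπ
  have hk : ∀ (k : ℕ) (w : A ⊗[F] L), bcMap π (((LieAlgebra.ad A (A ⊗[F] L) x) ^ k) w) =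
      ((LieAlgebra.ad B (B ⊗[F] L) (bcMap π x)) ^ k) (bcMap π w) := by
    intro k
    induction k with
    | zero => intro w; simp
    | succ k ih =>
      intro w
      rw [pow_succ, pow_succ, Module.End.mul_apply, Module.End.mul_apply, ih, LieAlgebra.ad_apply,
        LieAlgebra.ad_apply, bcMap_lie]
  refine LinearMap.ext fun w' => ?_
  obtain ⟨w, rfl⟩ := hs w'
  rw [LieAlgebra.ad_apply, ← bcMap_lie, ← LieAlgebra.ad_apply (R := A), h, hk]

theorem sum_pow_prime_pow {R : Type w} [Ring R] {p : ℕ} (hp : p.Prime) (hR : (p : R) = 0)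
    {ι : Type w'} (s : Finset ι) (f : ι → R) (hf : ∀ i ∈ s, ∀ j ∈ s, Commute (f i) (f j)) (n : ℕ) :
    (∑ i ∈ s, f i) ^ (p ^ n) = ∑ i ∈ s, f i ^ (p ^ n) := by
  classical
  induction s using Finset.induction_on with
  | empty =>
    simp [hp.ne_zero]
  | insert a s ha ih =>
    rw [Finset.sum_insert ha, Finset.sum_insert ha]
    have hc : Commute (f a) (∑ i ∈ s, f i) :=
      Commute.sum_right _ _ _ fun i hi =>
        hf a (Finset.mem_insert_self _ _) i (Finset.mem_insert_of_mem hi)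
    rw [hc.add_pow_prime_pow_eq hp n, hR, zero_mul, zero_mul, zero_mul, add_zero,
      ih fun i hi j hj => hf i (Finset.mem_insert_of_mem hi) j (Finset.mem_insert_of_mem hj)]

theorem ad_tmul (A : Type w) [CommRing A] [Algebra F A] (c : A) (z : L) :
    LieAlgebra.ad A (A ⊗[F] L) (c ⊗ₜ[F] z) = c • (LieAlgebra.ad F L z).baseChange A := by
  refine TensorProduct.AlgebraTensorModule.curry_injective ?_
  ext x
  simp [LieAlgebra.ExtendScalars.bracket_tmul, TensorProduct.smul_tmul']

theorem ad_sum_pow {p : ℕ} [Fact p.Prime] [CharP F p] {A : Type w} [CommRing A] [Algebra F A]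
    {k : ℕ} (c : Fin k → A) (z z' : Fin k → L) (hz : ∀ i j, ⁅z i, z j⁆ = 0) (i : ℕ)
    (h : ∀ j, LieAlgebra.ad F L (z' j) = (LieAlgebra.ad F L (z j)) ^ (p ^ i)) :
    LieAlgebra.ad A (A ⊗[F] L) (∑ j, ((c j) ^ (p ^ i)) ⊗ₜ[F] (z' j)) =
      (LieAlgebra.ad A (A ⊗[F] L) (∑ j, (c j) ⊗ₜ[F] (z j))) ^ (p ^ i) := by
  have hp0 : ((p : ℕ) : Module.End A (A ⊗[F] L)) = 0 := by
    have h1 : ((p : ℕ) : A) = 0 := by
      rw [← map_natCast (algebraMap F A) p, CharP.cast_eq_zero F p, map_zero]
    rw [← map_natCast (algebraMap A (Module.End A (A ⊗[F] L))) p, h1, map_zero]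
  rw [map_sum, map_sum, sum_pow_prime_pow Fact.out hp0]
  · refine Finset.sum_congr rfl fun j _ => ?_
    rw [ad_tmul, ad_tmul, h, smul_pow, LinearMap.baseChange_pow]
  · intro a _ b _
    rw [ad_tmul, ad_tmul]
    have hab : Commute (LieAlgebra.ad F L (z a)) (LieAlgebra.ad F L (z b)) := by
      refine LinearMap.ext fun w => ?_
      rw [Module.End.mul_apply, Module.End.mul_apply, LieAlgebra.ad_apply, LieAlgebra.ad_apply,
        LieAlgebra.ad_apply, LieAlgebra.ad_apply, leibniz_lie, hz, zero_lie, zero_add]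
    have h2 : Commute ((LieAlgebra.ad F L (z a)).baseChange A)
        ((LieAlgebra.ad F L (z b)).baseChange A) := by
      rw [Commute, SemiconjBy, ← LinearMap.baseChange_mul, hab.eq, LinearMap.baseChange_mul]
    exact (h2.smul_left _).smul_right _

theorem red_lie {A : Type w} [CommRing A] [Algebra F A] (ε : A →ₐ[F] F) (y z : A ⊗[F] L) :
    red ε ⁅y, z⁆ = ⁅red ε y, red ε z⁆ := by
  induction y using TensorProduct.induction_on with
  | zero => simp
  | tmul a x =>
    induction z using TensorProduct.induction_on with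
    | zero => simp
    | tmul a' x' =>
      rw [LieAlgebra.ExtendScalars.bracket_tmul, red_tmul, red_tmul, red_tmul, map_mul, smul_lie,
        lie_smul, smul_smul]
    | add z₁ z₂ h₁ h₂ => rw [lie_add, map_add, map_add, lie_add, h₁, h₂]
  | add z₁ z₂ h₁ h₂ => rw [add_lie, map_add, map_add, add_lie, h₁, h₂]

theorem ad_red_pow {A : Type w} [CommRing A] [Algebra F A] (ε : A →ₐ[F] F) (y z : A ⊗[F] L)
    (e : ℕ) : red ε (((LieAlgebra.ad A (A ⊗[F] L) y) ^ e) z) =
      ((LieAlgebra.ad F L (red ε y)) ^ e) (red ε z) := by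
  induction e generalizing z with
  | zero => simp
  | succ e ih =>
    rw [pow_succ, pow_succ, Module.End.mul_apply, Module.End.mul_apply, ih, LieAlgebra.ad_apply,
      LieAlgebra.ad_apply, red_lie]

end PerE
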