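import Pool.Agent.Lib.PerE.Defs

set_option autoImplicit false

/-!
# Chevalley's theorem over algebraic extensions of `F_p`

The coefficients `a` of the `c j` (finitely many) satisfy `a ^ (p ^ N) = a` for a common `N > 0` (the product of the single ones). The elements of `F`
with `a ^ (p ^ N) = a` form a subfield `K` (for example `(iterateFrobenius F p N).eqLocusField (RingHom.id F)`, or an explicit `Subfield`: additive by
`add_pow_char_pow`), finite, because they are roots of `X ^ (p ^ N) - X ≠ 0`. The `c j` are images of polynomials `c' j` over `K`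
(`MvPolynomial.mem_range_map_iff_coeffs_subset`), homogeneous of degree `d j` (`IsHomogeneous` is about the support, `K → F` injective). Chevalley-Warning
(`char_dvd_card_solutions_of_sum_lt`, with `totalDegree ≤ d j`): `p` divides the number of common zeros in `K ^ n`; `0` is one of them as `d j > 0`; so there is
another one.
-/

namespace PerE

open MvPolynomial

universe u

/-- `a ^ (p ^ N) = a` passes to multiples of `N` -/
theorem pow_mul_fix {p : ℕ} {F : Type u} [Field F] {a : F} {N : ℕ} (h : a ^ (p ^ N) = a) (k : ℕ) :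
    a ^ (p ^ (N * k)) = a := by
  induction k with
  | zero => simp
  | succ k ih => rw [Nat.mul_succ, pow_add, pow_mul, ih, h]

/-- a common exponent for finitely many elements -/
theorem common_fix {p : ℕ} {F : Type u} [Field F] (hF : Alg p F) {S : Set F} (hS : S.Finite) :
    ∃ N : ℕ, 0 < N ∧ ∀ a ∈ S, a ^ (p ^ N) = a := by
  induction S, hS using Set.Finite.induction_on with
  | empty => exact ⟨1, one_pos, by simp⟩
  | @insert x S _ _ ih =>
    obtain ⟨N, hN, h⟩ := ih
    obtain ⟨M, hM, hx⟩ := hF x
    refine ⟨M * N, Nat.mul_pos hM hN, ?_⟩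
    intro a ha
    rcases Set.mem_insert_iff.1 ha with rfl | ha
    · exact pow_mul_fix hx N
    · rw [Nat.mul_comm]
      exact pow_mul_fix (h a ha) M

/-- the subfield of the elements with `a ^ (p ^ N) = a` -/
noncomputable def fixF (p : ℕ) [Fact p.Prime] (F : Type u) [Field F] [CharP F p] (N : ℕ) :
    Subfield F :=
  (iterateFrobenius F p N).eqLocusField (RingHom.id F)

theorem mem_fixF {p : ℕ} [Fact p.Prime] {F : Type u} [Field F] [CharP F p] {N : ℕ} {a : F} :
    a ∈ fixF p F N ↔ a ^ (p ^ N) = a := by
  rw [fixF, RingHom.mem_eqLocusField, iterateFrobenius_def, RingHom.id_apply]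

theorem finite_fixF {p : ℕ} [hp : Fact p.Prime] {F : Type u} [Field F] [CharP F p] {N : ℕ}
    (hN : 0 < N) : Finite (fixF p F N) := by
  classical
  have hne : (Polynomial.X ^ p ^ N - Polynomial.X : Polynomial F) ≠ 0 :=
    FiniteField.X_pow_card_pow_sub_X_ne_zero F hN.ne' hp.out.one_lt
  have hsub : ((fixF p F N : Subfield F) : Set F) ⊆
      ((Polynomial.X ^ p ^ N - Polynomial.X : Polynomial F).roots.toFinset : Set F) := by
    intro a ha
    have ha' : a ^ (p ^ N) = a := mem_fixF.1 ha
    rw [Finset.mem_coe, Multiset.mem_toFinset, Polynomial.mem_roots hne]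
    simp [Polynomial.IsRoot, ha']
  exact ((Finset.finite_toSet _).subset hsub).to_subtype

theorem cw {p : ℕ} [Fact p.Prime] {F : Type u} [Field F] [CharP F p] (hF : Alg p F) {n e : ℕ}
    (c : Fin e → MvPolynomial (Fin n) F) (d : Fin e → ℕ) (hd : ∀ j, 0 < d j)
    (hc : ∀ j, (c j).IsHomogeneous (d j)) (hn : ∑ j, d j < n) :
    ∃ v : Fin n → F, v ≠ 0 ∧ ∀ j, eval v (c j) = 0 := by
  classical
  have hfin : (⋃ j, ((c j).coeffs : Set F)).Finite :=
    Set.finite_iUnion fun j => Finset.finite_toSet _
  obtain ⟨N, hN, hS⟩ := common_fix hF hfin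
  have : Finite (fixF p F N) := finite_fixF hN
  have : Fintype (fixF p F N) := Fintype.ofFinite _
  have hCh : CharP (fixF p F N) p :=
    (RingHom.charP_iff (fixF p F N).subtype (fixF p F N).subtype.injective p).2 inferInstance
  have hex : ∀ j, ∃ q : MvPolynomial (Fin n) (fixF p F N),
      MvPolynomial.map (fixF p F N).subtype q = c j := by
    intro j
    have : c j ∈ Set.range (MvPolynomial.map (fixF p F N).subtype) := by
      rw [mem_range_map_iff_coeffs_subset]
      intro a ha
      have : a ^ (p ^ N) = a := hS a (Set.mem_iUnion.2 ⟨j, ha⟩)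
      exact ⟨⟨a, mem_fixF.2 this⟩, rfl⟩
    exact this
  choose c' hc' using hex
  have hhom : ∀ j, (c' j).IsHomogeneous (d j) := by
    intro j
    refine IsHomogeneous.of_map (f := (fixF p F N).subtype) (fixF p F N).subtype.injective ?_
    rw [hc']
    exact hc j
  have hlt : ∑ j, (c' j).totalDegree < Fintype.card (Fin n) := by
    rw [Fintype.card_fin]
    exact (Finset.sum_le_sum fun j _ => (hhom j).totalDegree_le).trans_lt hn
  have hdvd : p ∣ Fintype.card {x : Fin n → fixF p F N // ∀ j, eval x (c' j) = 0} := by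
    convert char_dvd_card_solutions_of_fintype_sum_lt p (f := c') hlt
  have h0 : ∀ j, eval (0 : Fin n → fixF p F N) (c' j) = 0 := by
    intro j
    have := (hhom j).coeff_eq_zero (d := 0) (by simpa using (hd j).ne)
    rw [← constantCoeff_eq] at this
    rw [← this]
    simp [constantCoeff, eval_zero]
  have hcard : 1 < Fintype.card {x : Fin n → fixF p F N // ∀ j, eval x (c' j) = 0} := by
    have hpos : 0 < Fintype.card {x : Fin n → fixF p F N // ∀ j, eval x (c' j) = 0} :=
      Fintype.card_pos_iff.2 ⟨⟨0, h0⟩⟩
    exact (Fact.out : p.Prime).one_lt.trans_le (Nat.le_of_dvd hpos hdvd)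
  obtain ⟨x, hx⟩ := Fintype.exists_ne_of_one_lt_card hcard ⟨0, h0⟩
  refine ⟨fun i => (x.1 i : F), ?_, ?_⟩
  · intro h
    apply hx
    apply Subtype.ext
    funext i
    apply Subtype.ext
    exact congrFun h i
  · intro j
    have h := congrArg (fixF p F N).subtype (x.2 j)
    rw [map_eval, hc', map_zero] at h
    exact h

end PerE
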