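import Pool.Agent.Lib.PerE.Rel
import Pool.Agent.Lib.PerE.CW

set_option autoImplicit false

/-!
# One finite dimensional centraliser: the algebra is finite dimensional

`bd`: if `L` is not finite dimensional there is an independent family `x : Fin n → L` with `x i0 = x0` for some `i0` and `n = p ^ r * p ^ r + 1`
or larger (`x0 ≠ 0`, otherwise the kernel is everything; extend `{x0}` to a basis of `L`, infinite, take a finite subset containing `x0`). `relation`:
`e ≤ p ^ r`, `c`. `cw` with `d j = e - j` (`∑ j < e, (e - j) ≤ e * e < n`): `v ≠ 0` with `eval v (c j) = 0` for all `j`;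
`y = ∑ v i • x i ≠ 0`; apply `red (aeval v)` to the relation at `1 ⊗ z` (`ad_red_pow`, `red (aeval v) (gen x) = y`): `(ad y) ^ e z = 0` for all `z`, so `⁅y, z⁆ = 0`
(`kill`), so `y = 0` (`hZ`). Contradiction.
-/

namespace PerE

open Module
open scoped TensorProduct

universe u v

variable {p : ℕ} [Fact p.Prime] {F : Type u} [Field F] [CharP F p] {L : Type v} [LieRing L]
  [LieAlgebra F L]

theorem bd_red_smul {F : Type u} [Field F] {L : Type v} [AddCommGroup L] [Module F L]
    {A : Type*} [CommRing A] [Algebra F A] (ε : A →ₐ[F] F) (a : A) (w : A ⊗[F] L) :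
    red ε (a • w) = ε a • red ε w := by
  induction w using TensorProduct.induction_on with
  | zero => simp
  | tmul b x => rw [TensorProduct.smul_tmul', red_tmul, red_tmul, smul_eq_mul, map_mul, mul_smul]
  | add w w' hw hw' => rw [smul_add, map_add, map_add, smul_add, hw, hw']

theorem bd_family {F : Type u} [Field F] {L : Type v} [AddCommGroup L] [Module F L]
    (hinf : ¬ FiniteDimensional F L) (x0 : L) (hx0 : x0 ≠ 0) (n : ℕ) (hn : 0 < n) :
    ∃ (x : Fin n → L) (i0 : Fin n), LinearIndependent F x ∧ x i0 = x0 := by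
  classical
  have hs : LinearIndepOn F id ({x0} : Set L) := LinearIndepOn.singleton hx0
  let b := Basis.extend hs
  have hinf' : Infinite (hs.extend (Set.subset_univ _)) := by
    by_contra hfin
    rw [not_infinite_iff_finite] at hfin
    exact hinf (Module.Finite.of_basis b)
  have hmem : x0 ∈ hs.extend (Set.subset_univ _) :=
    hs.subset_extend _ (Set.mem_singleton _)
  obtain ⟨t, ht, htc⟩ := Infinite.exists_superset_card_eq
    ({⟨x0, hmem⟩} : Finset (hs.extend (Set.subset_univ _))) n (by rw [Finset.card_singleton]; exact hn)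
  let e : Fin n ≃ t := (t.equivFinOfCardEq htc).symm
  refine ⟨fun i => b (e i), e.symm ⟨⟨x0, hmem⟩, ht (Finset.mem_singleton_self _)⟩, ?_, ?_⟩
  · exact b.linearIndependent.comp (fun i => ((e i : t) : hs.extend (Set.subset_univ _)))
      (Subtype.val_injective.comp e.injective)
  · simp only [Equiv.apply_symm_apply]
    exact Basis.extend_apply_self hs ⟨x0, hmem⟩

theorem bd (h : Per p F L) (hF : Alg p F) (hZ : Ctr0 L) (x0 : L) (r : ℕ)
    [FiniteDimensional F (LinearMap.ker (LieAlgebra.ad F L x0))]
    (hr : finrank F (LinearMap.ker (LieAlgebra.ad F L x0)) ≤ r) : FiniteDimensional F L := by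
  by_contra hinf
  have hx0 : x0 ≠ 0 := by
    rintro rfl
    apply hinf
    have h1 : LinearMap.ker (LieAlgebra.ad F L (0 : L)) = ⊤ := by simp
    have h2 : FiniteDimensional F (⊤ : Submodule F L) := by
      rw [← h1]; infer_instance
    exact Module.Finite.equiv (Submodule.topEquiv : (⊤ : Submodule F L) ≃ₗ[F] L)
  obtain ⟨x, i0, hx, hi0⟩ := bd_family hinf x0 hx0 (p ^ r * p ^ r + 1) (Nat.succ_pos _)
  have : FiniteDimensional F (LinearMap.ker (LieAlgebra.ad F L (x i0))) := by
    rw [hi0]; infer_instance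
  obtain ⟨e, c, he, hc, hrel⟩ := relation h x i0 r (by rw [hi0]; exact hr)
  have hsum : ∑ j : Fin e, (e - (j : ℕ)) < p ^ r * p ^ r + 1 := by
    have h1 : ∑ j : Fin e, (e - (j : ℕ)) ≤ ∑ _j : Fin e, e :=
      Finset.sum_le_sum fun j _ => Nat.sub_le _ _
    have h2 : ∑ _j : Fin e, e = e * e := by simp
    have h3 : e * e ≤ p ^ r * p ^ r := Nat.mul_le_mul he he
    omega
  obtain ⟨v, hv, hev⟩ := cw hF c (fun j => e - (j : ℕ)) (fun j => Nat.sub_pos_of_lt j.2) hc hsum
  set ε : MvPolynomial (Fin (p ^ r * p ^ r + 1)) F →ₐ[F] F := MvPolynomial.aeval v with hε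
  have hy : red ε (gen x) = ∑ i, v i • x i := by
    rw [gen, map_sum]
    refine Finset.sum_congr rfl fun i _ => ?_
    rw [red_tmul, hε, MvPolynomial.aeval_X]
  have hy0 : ∑ i, v i • x i ≠ 0 := by
    intro h0
    exact hv (funext fun i => Fintype.linearIndependent_iff.1 hx v h0 i)
  apply hy0
  apply hZ
  intro z
  apply kill h _ z e
  have h1 := congrArg (fun f => red ε (f (1 ⊗ₜ[F] z))) hrel
  simp only [LinearMap.add_apply, LinearMap.sum_apply, LinearMap.smul_apply, map_add, map_sum,
    LinearMap.zero_apply, map_zero, bd_red_smul, ad_red_pow, red_tmul, map_one, one_smul] at h1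
  rw [hy] at h1
  have h2 : ∀ j : Fin e, ε (c j) = 0 := by
    intro j
    have := hev j
    rwa [← MvPolynomial.coe_aeval_eq_eval] at this
  simpa [h2] using h1

end PerE
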