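import Pool.Agent.Lib.PerE.Main

set_option autoImplicit false

/-!
# The relative form: centralisers of finite codimension
-/

namespace PerE

open Module

universe u v

variable {p : ℕ} [Fact p.Prime] {F : Type u} [Field F] [CharP F p]

/-- the centraliser of a set, a subalgebra -/
def centS (F : Type u) [Field F] {L : Type v} [LieRing L] [LieAlgebra F L] (S : Set L) :
    LieSubalgebra F L where
  carrier := {y | ∀ x ∈ S, ⁅x, y⁆ = 0}
  add_mem' := by
    intro a b ha hb x hx
    rw [lie_add, ha x hx, hb x hx, add_zero]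
  zero_mem' := by
    intro x _
    simp
  smul_mem' := by
    intro c a ha x hx
    rw [lie_smul, ha x hx, smul_zero]
  lie_mem' := by
    intro a b ha hb x hx
    have h1 : ⁅x, a⁆ = 0 := ha x hx
    have h2 : ⁅x, b⁆ = 0 := hb x hx
    rw [leibniz_lie, h1, h2, zero_lie, lie_zero, add_zero]

theorem mem_centS {L : Type v} [LieRing L] [LieAlgebra F L] {S : Set L} {y : L} :
    y ∈ centS F S ↔ ∀ x ∈ S, ⁅x, y⁆ = 0 := Iff.rfl

theorem ad_pow_coe {L : Type v} [LieRing L] [LieAlgebra F L] (H : LieSubalgebra F L) (x y : H)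
    (k : ℕ) : (((LieAlgebra.ad F H x) ^ k) y : L) = ((LieAlgebra.ad F L (x : L)) ^ k) (y : L) := by
  induction k with
  | zero => simp
  | succ k ih =>
    rw [pow_succ', pow_succ', Module.End.mul_apply, Module.End.mul_apply, ← ih]
    rfl

omit [CharP F p] in
theorem per_centS {L : Type v} [LieRing L] [LieAlgebra F L] (h : Per p F L) (S : Set L) :
    Per p F (centS F S) := by
  have hp : p.Prime := Fact.out
  constructor
  · intro x
    obtain ⟨y, hy⟩ := h.cl (x : L)
    have hyS : y ∈ centS F S := by
      intro c hc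
      have h1 : ⁅y, c⁆ = 0 := by
        rw [← LieAlgebra.ad_apply F, ← hy]
        obtain ⟨n, hn⟩ := Nat.exists_eq_add_of_lt hp.pos
        rw [hn, pow_succ, Module.End.mul_apply, LieAlgebra.ad_apply]
        have h2 : ⁅c, (x : L)⁆ = 0 := x.2 c hc
        rw [← lie_skew, h2, neg_zero, map_zero]
      rw [← lie_skew, h1, neg_zero]
    refine ⟨⟨y, hyS⟩, ?_⟩
    ext z
    rw [ad_pow_coe, hy]
    rfl
  · intro x
    obtain ⟨m, hm, hx⟩ := h.per (x : L)
    refine ⟨m, hm, ?_⟩
    ext z
    rw [ad_pow_coe, hx]
    rfl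

/-- `X` commuting, the centraliser of `X ∪ Y` of finite codimension in the centraliser of `X`: then
`X ∪ Y` is commuting -/
theorem codim {L : Type v} [LieRing L] [LieAlgebra F L] (h : Per p F L) (X Y : Set L)
    (hX : ∀ x ∈ X, ∀ y ∈ X, ⁅x, y⁆ = 0)
    (hfin : FiniteDimensional F ((cent F X).map (cent F (X ∪ Y)).mkQ)) :
    ∀ x ∈ X ∪ Y, ∀ y ∈ X ∪ Y, ⁅x, y⁆ = 0 := by
  set C : Submodule F L := cent F (X ∪ Y) with hC
  have hsub : ∀ x ∈ X ∪ Y, x ∈ centS F (C : Set L) := by
    intro x hx c hc
    have h1 : ⁅x, c⁆ = 0 := hc x hx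
    rw [← lie_skew, h1, neg_zero]
  have hH : ∀ x y : centS F (C : Set L), ⁅x, y⁆ = 0 := by
    refine main (per_centS h (C : Set L)) {x | (x : L) ∈ X} ?_ ?_
    · intro x hx y hy
      apply Subtype.ext
      exact hX x hx y hy
    · let V := cent F {x : centS F (C : Set L) | (x : L) ∈ X}
      let f : V →ₗ[F] (L ⧸ C) := C.mkQ ∘ₗ (centS F (C : Set L)).toSubmodule.subtype ∘ₗ V.subtype
      let g : V →ₗ[F] (centS F (C : Set L) ⧸
          (LieAlgebra.center F (centS F (C : Set L))).toSubmodule) :=
        (LieAlgebra.center F (centS F (C : Set L))).toSubmodule.mkQ ∘ₗ V.subtype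
      have hf : FiniteDimensional F (LinearMap.range f) := by
        have hle : LinearMap.range f ≤ (cent F X).map C.mkQ := by
          rintro _ ⟨v, rfl⟩
          refine ⟨((v : centS F (C : Set L)) : L), ?_, rfl⟩
          intro x hx
          have := v.2 ⟨x, hsub x (Or.inl hx)⟩ hx
          exact congrArg Subtype.val this
        exact Submodule.finiteDimensional_of_le hle
      have hle : LinearMap.ker f ≤ LinearMap.ker g := by
        intro v hv
        have h1 : ((v : centS F (C : Set L)) : L) ∈ C :=
          (Submodule.Quotient.mk_eq_zero _).1 (LinearMap.mem_ker.1 hv)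
        rw [LinearMap.mem_ker]
        refine (Submodule.Quotient.mk_eq_zero _).2 ?_
        change (v : centS F (C : Set L)) ∈ LieAlgebra.center F (centS F (C : Set L))
        rw [mem_center_iff']
        intro z
        apply Subtype.ext
        exact z.2 _ h1
      have hg := fd_of_ker_le f g hle hf
      have e : LinearMap.range g = V.map
          (LieAlgebra.center F (centS F (C : Set L))).toSubmodule.mkQ := by
        rw [LinearMap.range_comp, Submodule.range_subtype]
      rw [← e]
      exact hg
  intro x hx y hy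
  exact congrArg Subtype.val (hH ⟨x, hsub x hx⟩ ⟨y, hsub y hy⟩)

end PerE
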