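import Mathlib

set_option autoImplicit false

/-!
# Lie algebras with periodic inner derivations, closed under `p`-th powers: definitions
-/

namespace PerE

open Module
open scoped TensorProduct

universe u v w w'

/-- the inner derivations are closed under `p`-th powers and periodic -/
structure Per (p : ℕ) (F : Type u) [Field F] (L : Type v) [LieRing L] [LieAlgebra F L] : Prop where
  cl : ∀ x : L, ∃ y : L, (LieAlgebra.ad F L x) ^ p = LieAlgebra.ad F L y
  per : ∀ x : L, ∃ m : ℕ, 0 < m ∧ (LieAlgebra.ad F L x) ^ (p ^ m) = LieAlgebra.ad F L x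

/-- the centre is zero -/
def Ctr0 (L : Type v) [LieRing L] : Prop := ∀ x : L, (∀ y : L, ⁅x, y⁆ = 0) → x = 0

/-- every element of `F` is algebraic over the prime field -/
def Alg (p : ℕ) (F : Type u) [Field F] : Prop := ∀ a : F, ∃ N : ℕ, 0 < N ∧ a ^ (p ^ N) = a

/-- the centraliser of `v`, a subalgebra -/
def centL (F : Type u) [Field F] {L : Type v} [LieRing L] [LieAlgebra F L] (v : L) :
    LieSubalgebra F L where
  carrier := {y | ⁅v, y⁆ = 0}
  add_mem' := by
    intro a b ha hb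
    change ⁅v, a⁆ = 0 at ha
    change ⁅v, b⁆ = 0 at hb
    change ⁅v, a + b⁆ = 0
    rw [lie_add, ha, hb, add_zero]
  zero_mem' := by
    change ⁅v, (0 : L)⁆ = 0
    simp
  smul_mem' := by
    intro c a ha
    change ⁅v, a⁆ = 0 at ha
    change ⁅v, c • a⁆ = 0
    rw [lie_smul, ha, smul_zero]
  lie_mem' := by
    intro a b ha hb
    change ⁅v, a⁆ = 0 at ha
    change ⁅v, b⁆ = 0 at hb
    change ⁅v, ⁅a, b⁆⁆ = 0
    rw [leibniz_lie, ha, hb, zero_lie, lie_zero, add_zero]

theorem mem_centL {F : Type u} [Field F] {L : Type v} [LieRing L] [LieAlgebra F L] {v y : L} :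
    y ∈ centL F v ↔ ⁅v, y⁆ = 0 := Iff.rfl

section Tensor

variable {F : Type u} [Field F] {L : Type v} [AddCommGroup L] [Module F L]

/-- a functional on `L`, extended to `A ⊗ L` : `a ⊗ x ↦ l x • a` -/
noncomputable def coord (A : Type w) [CommRing A] [Algebra F A] (l : L →ₗ[F] F) :
    A ⊗[F] L →ₗ[A] A :=
  (TensorProduct.AlgebraTensorModule.rid F A A).toLinearMap ∘ₗ l.baseChange A

@[simp]
theorem coord_tmul (A : Type w) [CommRing A] [Algebra F A] (l : L →ₗ[F] F) (a : A) (x : L) :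
    coord A l (a ⊗ₜ[F] x) = l x • a := by
  simp [coord]

/-- reduction at a point of `A`: `a ⊗ x ↦ ε a • x` -/
noncomputable def red {A : Type w} [CommRing A] [Algebra F A] (ε : A →ₐ[F] F) : A ⊗[F] L →ₗ[F] L :=
  (TensorProduct.lid F L).toLinearMap ∘ₗ ε.toLinearMap.rTensor L

@[simp]
theorem red_tmul {A : Type w} [CommRing A] [Algebra F A] (ε : A →ₐ[F] F) (a : A) (x : L) :
    red ε (a ⊗ₜ[F] x) = ε a • x := by
  simp [red]

/-- base change along `π : A → B` -/
noncomputable def bcMap {A : Type w} {B : Type w'} [CommRing A] [Algebra F A] [CommRing B]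
    [Algebra F B] (π : A →ₐ[F] B) : A ⊗[F] L →ₗ[F] B ⊗[F] L :=
  π.toLinearMap.rTensor L

@[simp]
theorem bcMap_tmul {A : Type w} {B : Type w'} [CommRing A] [Algebra F A] [CommRing B]
    [Algebra F B] (π : A →ₐ[F] B) (a : A) (x : L) :
    bcMap π (a ⊗ₜ[F] x) = π a ⊗ₜ[F] x := by
  simp [bcMap]

/-- the generic element `∑ X i ⊗ x i` -/
noncomputable def gen {ι : Type} [Fintype ι] (x : ι → L) : MvPolynomial ι F ⊗[F] L :=
  ∑ i, (MvPolynomial.X i : MvPolynomial ι F) ⊗ₜ[F] x i

end Tensor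

end PerE
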