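import Pool.Agent.Lib.PerE.Bd
import Pool.Agent.Lib.PerE.Codim

set_option autoImplicit false

/-!
# Subspaces of bounded degree

`V` a subspace of `L`, every `ad v`, `v` in `V`, a root of a nonzero polynomial of degree at most `e`, more than
`e (e + 1) / 2` elements in `F`. Then `V` has dimension at most `e (e - 1) / 2` modulo the centre.
-/

namespace PerE

open Module
open scoped TensorProduct

universe u v w

/-- independent vectors have a nonzero minor for a separating family of functionals -/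
theorem exists_minor {A : Type*} [CommRing A] [IsDomain A] {M : Type*} [AddCommGroup M]
    [Module A M] {I : Type*} (φ : I → (M →ₗ[A] A)) (hφ : ∀ m : M, (∀ i, φ i m = 0) → m = 0)
    {r : ℕ} : ∀ (θ : Fin r → M), LinearIndependent A θ →
      ∃ i : Fin r → I, (Matrix.of fun a b => φ (i a) (θ b)).det ≠ 0 := by
  induction r with
  | zero => intro θ _; exact ⟨Fin.elim0, by simp⟩
  | succ r ih =>
    intro θ hθ
    obtain ⟨i', hi'⟩ := ih (fun b => θ b.succ) (hθ.comp Fin.succ (Fin.succ_injective r))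
    by_contra hne
    push Not at hne
    let c : Fin (r + 1) → A := fun b =>
      (-1) ^ (b : ℕ) * (Matrix.of fun a b' : Fin r => φ (i' a) (θ (b.succAbove b'))).det
    have h0 : ∑ b, c b • θ b = 0 := by
      apply hφ
      intro i
      have h1 := hne (Fin.cons i i')
      rw [Matrix.det_succ_row_zero] at h1
      rw [map_sum, ← h1]
      refine Finset.sum_congr rfl fun b _ => ?_
      rw [map_smul, smul_eq_mul]
      simp only [c, Matrix.of_apply, Fin.cons_zero]
      rw [mul_assoc, mul_assoc, mul_comm (Matrix.det _)]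
      congr 2
    have h2 := Fintype.linearIndependent_iff.1 hθ c h0 0
    apply hi'
    simpa [c] using h2

/-- powers of an element: a dependence relation gives a monic relation -/
theorem monic_of_dep {A : Type*} [CommRing A] [IsDomain A] [IsNoetherianRing A] {B : Type*}
    [Ring B] [Algebra A B] (htf : ∀ (a : A) (b : B), a ≠ 0 → a • b = 0 → b = 0)
    {I : Type*} (φ : I → (B →ₗ[A] A)) (hφ : ∀ m : B, (∀ i, φ i m = 0) → m = 0) (D : B) (e : ℕ)
    (hdep : ¬ LinearIndependent A (fun j : Fin (e + 1) => D ^ (j : ℕ))) :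
    ∃ R : Polynomial A, R.Monic ∧ Polynomial.aeval D R = 0 := by
  classical
  -- the first dependent power
  have hex : ∃ r : ℕ, ¬ LinearIndependent A (fun j : Fin (r + 1) => D ^ (j : ℕ)) := ⟨e, hdep⟩
  obtain ⟨r, hr, hmin⟩ : ∃ r : ℕ, ¬ LinearIndependent A (fun j : Fin (r + 1) => D ^ (j : ℕ)) ∧
      LinearIndependent A (fun j : Fin r => D ^ (j : ℕ)) := by
    refine ⟨Nat.find hex, Nat.find_spec hex, ?_⟩
    rcases Nat.eq_zero_or_pos (Nat.find hex) with h0 | h0
    · rw [h0]
      exact linearIndependent_empty_type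
    · have h1 := Nat.find_min hex (Nat.sub_lt h0 Nat.one_pos)
      rw [not_not, Nat.sub_add_cancel h0] at h1
      exact h1
  obtain ⟨i, hi⟩ := exists_minor φ hφ (fun j : Fin r => D ^ (j : ℕ)) hmin
  -- the relation for `D ^ r`
  set S : Submodule A B := Submodule.span A (Set.range fun j : Fin r => D ^ (j : ℕ)) with hS
  obtain ⟨δ, hδ, hδr⟩ : ∃ δ : A, δ ≠ 0 ∧ δ • D ^ r ∈ S := by
    rw [Fintype.not_linearIndependent_iff] at hr
    obtain ⟨c, hc, j, hj⟩ := hr
    rw [Fin.sum_univ_castSucc] at hc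
    simp only [Fin.val_castSucc, Fin.val_last] at hc
    refine ⟨c (Fin.last r), ?_, ?_⟩
    · intro h0
      rw [h0, zero_smul, add_zero] at hc
      have h1 := Fintype.linearIndependent_iff.1 hmin (fun j => c j.castSucc) hc
      refine Fin.lastCases ?_ ?_ j (motive := fun j => c j ≠ 0 → False) hj
      · exact fun h => h h0
      · exact fun j h => h (h1 j)
    · have h1 : c (Fin.last r) • D ^ r = - ∑ j : Fin r, c j.castSucc • D ^ (j : ℕ) := by
        rw [eq_neg_iff_add_eq_zero, add_comm]
        exact hc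
      rw [h1]
      refine Submodule.neg_mem _ (Submodule.sum_mem _ fun j _ => Submodule.smul_mem _ _ ?_)
      exact Submodule.subset_span ⟨j, rfl⟩
  have hmulD : ∀ x ∈ S, δ • (x * D) ∈ S := by
    intro x hx
    rw [hS] at hx
    induction hx using Submodule.span_induction with
    | mem x hx =>
      obtain ⟨j, rfl⟩ := hx
      change δ • (D ^ (j : ℕ) * D) ∈ S
      rw [← pow_succ]
      rcases Nat.lt_or_ge (j + 1) r with h | h
      · exact Submodule.smul_mem _ _ (Submodule.subset_span ⟨⟨j + 1, h⟩, rfl⟩)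
      · have h1 : (j : ℕ) + 1 = r := le_antisymm j.2 h
        rw [h1]
        exact hδr
    | zero => rw [zero_mul, smul_zero]; exact Submodule.zero_mem _
    | add x y _ _ hx hy => rw [add_mul, smul_add]; exact Submodule.add_mem _ hx hy
    | smul a x _ hx => rw [smul_mul_assoc, smul_comm]; exact Submodule.smul_mem _ _ hx
  have hall : ∀ m : ℕ, ∃ d : A, d ≠ 0 ∧ d • D ^ m ∈ S := by
    intro m
    induction m with
    | zero =>
      rcases Nat.eq_zero_or_pos r with h | h
      · refine ⟨δ, hδ, ?_⟩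
        rw [h] at hδr
        exact hδr
      · exact ⟨1, one_ne_zero, Submodule.smul_mem _ _ (Submodule.subset_span ⟨⟨0, h⟩, rfl⟩)⟩
    | succ m ih =>
      obtain ⟨d, hd, hdm⟩ := ih
      refine ⟨δ * d, mul_ne_zero hδ hd, ?_⟩
      have h1 := hmulD _ hdm
      rw [smul_mul_assoc, ← pow_succ, smul_smul] at h1
      exact h1
  -- elements which are torsion modulo `S` are determined by the functionals
  have hzero : ∀ (x : B), (∃ d : A, d ≠ 0 ∧ d • x ∈ S) → (∀ a : Fin r, φ (i a) x = 0) → x = 0 := by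
    rintro x ⟨d, hd, hx⟩ h0
    rw [hS, Submodule.mem_span_range_iff_exists_fun] at hx
    obtain ⟨c, hc⟩ := hx
    have h1 : (Matrix.of fun a b : Fin r => φ (i a) (D ^ (b : ℕ))).mulVec c = 0 := by
      funext a
      have h2 := congrArg (φ (i a)) hc
      rw [map_sum, map_smul, h0, smul_zero] at h2
      simp only [Matrix.mulVec, dotProduct, Matrix.of_apply, Pi.zero_apply]
      rw [← h2]
      refine Finset.sum_congr rfl fun b _ => ?_
      rw [map_smul, smul_eq_mul, mul_comm]
    have h3 := Matrix.eq_zero_of_mulVec_eq_zero hi h1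
    rw [h3] at hc
    simp only [Pi.zero_apply, zero_smul, Finset.sum_const_zero] at hc
    exact htf d x hd hc.symm
  -- the Noetherian argument
  let Φ : B →ₗ[A] (Fin r → A) := LinearMap.pi fun a => φ (i a)
  let f : ℕ →o Submodule A (Fin r → A) :=
    ⟨fun M => (Submodule.span A (Set.range fun j : Fin M => D ^ (j : ℕ))).map Φ, by
      intro M M' hMM
      apply Submodule.map_mono
      apply Submodule.span_mono
      rintro _ ⟨j, rfl⟩
      exact ⟨⟨j, lt_of_lt_of_le j.2 hMM⟩, rfl⟩⟩
  obtain ⟨n, hn⟩ := monotone_stabilizes_iff_noetherian.mpr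
    (inferInstance : IsNoetherian A (Fin r → A)) f
  have h1 : Φ (D ^ n) ∈ f n := by
    rw [hn (n + 1) (Nat.le_succ n)]
    exact Submodule.mem_map_of_mem (Submodule.subset_span ⟨⟨n, Nat.lt_succ_self n⟩, rfl⟩)
  obtain ⟨m, hm, hme⟩ := h1
  have htors : ∀ x ∈ Submodule.span A (Set.range fun j : Fin n => D ^ (j : ℕ)),
      ∃ d : A, d ≠ 0 ∧ d • x ∈ S := by
    intro x hx
    induction hx using Submodule.span_induction with
    | mem x hx =>
      obtain ⟨j, rfl⟩ := hx
      exact hall j
    | zero => exact ⟨1, one_ne_zero, by rw [smul_zero]; exact Submodule.zero_mem _⟩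
    | add x y _ _ hx hy =>
      obtain ⟨d, hd, hdx⟩ := hx
      obtain ⟨d', hd', hdy⟩ := hy
      refine ⟨d * d', mul_ne_zero hd hd', ?_⟩
      rw [smul_add]
      refine Submodule.add_mem _ ?_ ?_
      · rw [mul_comm, mul_smul]; exact Submodule.smul_mem _ _ hdx
      · rw [mul_smul]; exact Submodule.smul_mem _ _ hdy
    | smul a x _ hx =>
      obtain ⟨d, hd, hdx⟩ := hx
      refine ⟨d, hd, ?_⟩
      rw [smul_comm]
      exact Submodule.smul_mem _ _ hdx
  have hDn : D ^ n = m := by
    rw [← sub_eq_zero]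
    apply hzero
    · obtain ⟨d, hd, hdx⟩ := hall n
      obtain ⟨d', hd', hdy⟩ := htors m hm
      refine ⟨d * d', mul_ne_zero hd hd', ?_⟩
      rw [smul_sub]
      refine Submodule.sub_mem _ ?_ ?_
      · rw [mul_comm, mul_smul]; exact Submodule.smul_mem _ _ hdx
      · rw [mul_smul]; exact Submodule.smul_mem _ _ hdy
    · intro a
      rw [map_sub, sub_eq_zero]
      exact (congrFun hme a).symm
  rw [← hDn, SetLike.mem_coe, Submodule.mem_span_range_iff_exists_fun] at hm
  obtain ⟨ρ, hρ⟩ := hm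
  refine ⟨Polynomial.X ^ n - ∑ j : Fin n, Polynomial.C (ρ j) * Polynomial.X ^ (j : ℕ),
    Polynomial.monic_X_pow_sub ?_, ?_⟩
  · refine lt_of_le_of_lt (Polynomial.degree_sum_le _ _) ?_
    rw [Finset.sup_lt_iff (WithBot.bot_lt_coe _)]
    intro j _
    refine lt_of_le_of_lt (Polynomial.degree_C_mul_X_pow_le _ _) ?_
    exact_mod_cast j.2
  · rw [map_sub, map_pow, Polynomial.aeval_X, map_sum, sub_eq_zero, ← hρ]
    refine Finset.sum_congr rfl fun j _ => ?_
    rw [map_mul, Polynomial.aeval_C, map_pow, Polynomial.aeval_X, Algebra.smul_def]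


/-- the functionals `coord A l` separate the elements of `A ⊗ L` -/
theorem coord_sep {F : Type u} [Field F] {L : Type v} [AddCommGroup L] [Module F L]
    {A : Type w} [CommRing A] [Algebra F A] (z : A ⊗[F] L)
    (h : ∀ l : L →ₗ[F] F, coord A l z = 0) : z = 0 := by
  let b := Basis.ofVectorSpace F L
  let B : Basis (Basis.ofVectorSpaceIndex F L) A (A ⊗[F] L) := Algebra.TensorProduct.basis A b
  apply B.ext_elem
  intro j
  have h1 : ∀ z : A ⊗[F] L, B.repr z j = coord A (b.coord j) z := by
    intro z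
    induction z using TensorProduct.induction_on with
    | zero => simp
    | tmul a x =>
      rw [coord_tmul]
      simp [B, Algebra.TensorProduct.basis_repr_tmul, Algebra.smul_def, mul_comm]
    | add y z hy hz => rw [map_add, map_add, Finsupp.add_apply, hy, hz]
  rw [h1, h, map_zero, Finsupp.zero_apply]

theorem coord_homog {F : Type u} [Field F] {L : Type v} [AddCommGroup L] [Module F L] {n j : ℕ}
    {z : MvPolynomial (Fin n) F ⊗[F] L} (hz : z ∈ homogPart F L n j) (l : L →ₗ[F] F) :
    (coord (MvPolynomial (Fin n) F) l z).IsHomogeneous j := by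
  unfold homogPart at hz
  rw [← MvPolynomial.mem_homogeneousSubmodule]
  induction hz using Submodule.span_induction with
  | mem m hm =>
    obtain ⟨a, y, ha, rfl⟩ := hm
    rw [coord_tmul]
    exact Submodule.smul_mem _ _ ha
  | zero => rw [map_zero]; exact Submodule.zero_mem _
  | add u v _ _ hu hv => rw [map_add]; exact Submodule.add_mem _ hu hv
  | smul c u _ hu =>
    have h1 := (coord (MvPolynomial (Fin n) F) l).map_smul_of_tower c u
    rw [h1]
    exact Submodule.smul_mem _ _ hu

/-- the functional `Θ ↦ coord A l (Θ (1 ⊗ y))` -/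
noncomputable def opCoord (F : Type u) [Field F] {L : Type v} [AddCommGroup L] [Module F L]
    (A : Type w) [CommRing A] [Algebra F A] (i : L × (L →ₗ[F] F)) :
    Module.End A (A ⊗[F] L) →ₗ[A] A :=
  (coord A i.2).comp (LinearMap.applyₗ ((1 : A) ⊗ₜ[F] i.1))

theorem opCoord_apply {F : Type u} [Field F] {L : Type v} [AddCommGroup L] [Module F L]
    (A : Type w) [CommRing A] [Algebra F A] (i : L × (L →ₗ[F] F)) (Θ : Module.End A (A ⊗[F] L)) :
    opCoord F A i Θ = coord A i.2 (Θ ((1 : A) ⊗ₜ[F] i.1)) := rfl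

theorem opCoord_sep {F : Type u} [Field F] {L : Type v} [AddCommGroup L] [Module F L]
    (A : Type w) [CommRing A] [Algebra F A] (Θ : Module.End A (A ⊗[F] L))
    (h : ∀ i, opCoord F A i Θ = 0) : Θ = 0 := by
  have h1 : ∀ y : L, Θ ((1 : A) ⊗ₜ[F] y) = 0 := fun y =>
    coord_sep _ fun l => h (y, l)
  refine LinearMap.ext fun z => ?_
  rw [LinearMap.zero_apply]
  induction z using TensorProduct.induction_on with
  | zero => simp
  | tmul a x =>
    have h2 : a ⊗ₜ[F] x = a • ((1 : A) ⊗ₜ[F] x) := by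
      rw [TensorProduct.smul_tmul', smul_eq_mul, mul_one]
    rw [h2, map_smul, h1, smul_zero]
  | add y z hy hz => rw [map_add, hy, hz, add_zero]

/-- the powers of the generic element are dependent -/
theorem deg_dep {F : Type u} [Field F] {L : Type v} [LieRing L] [LieAlgebra F L] {n : ℕ}
    (x : Fin n → L) (e : ℕ) (S : Finset F) (hS : e * (e + 1) / 2 < S.card)
    (hdeg : ∀ u : Fin n → F, ∃ q : Polynomial F, q ≠ 0 ∧ q.natDegree ≤ e ∧
      Polynomial.aeval (LieAlgebra.ad F L (∑ i, u i • x i)) q = 0) :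
    ¬ LinearIndependent (MvPolynomial (Fin n) F) (fun j : Fin (e + 1) =>
      (LieAlgebra.ad (MvPolynomial (Fin n) F) (MvPolynomial (Fin n) F ⊗[F] L) (gen x)) ^ (j : ℕ)) := by
  classical
  intro hind
  obtain ⟨i, hi⟩ := exists_minor (opCoord F (MvPolynomial (Fin n) F))
    (opCoord_sep (MvPolynomial (Fin n) F)) _ hind
  apply hi
  set D := LieAlgebra.ad (MvPolynomial (Fin n) F) (MvPolynomial (Fin n) F ⊗[F] L) (gen x) with hD
  set M : Matrix (Fin (e + 1)) (Fin (e + 1)) (MvPolynomial (Fin n) F) :=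
    Matrix.of fun a b => opCoord F (MvPolynomial (Fin n) F) (i a) (D ^ (b : ℕ)) with hM
  have hMh : ∀ a b, (M a b).IsHomogeneous (b : ℕ) := by
    intro a b
    rw [hM, Matrix.of_apply, opCoord_apply]
    exact coord_homog (homogPart_pow x _ _) _
  have hdet : M.det.IsHomogeneous (e * (e + 1) / 2) := by
    rw [Matrix.det_apply, ← MvPolynomial.mem_homogeneousSubmodule]
    refine Submodule.sum_mem _ fun π _ => ?_
    have h1 : (∏ b, M (π b) b).IsHomogeneous (e * (e + 1) / 2) := by
      have h2 := MvPolynomial.IsHomogeneous.prod Finset.univ (fun b => M (π b) b)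
        (fun b => (b : ℕ)) fun b _ => hMh (π b) b
      have h3 : ∑ b : Fin (e + 1), (b : ℕ) = e * (e + 1) / 2 := by
        rw [Fin.sum_univ_eq_sum_range (fun b => b) (e + 1), Finset.sum_range_id, Nat.add_sub_cancel,
          mul_comm]
      rw [h3] at h2
      exact h2
    rcases Int.units_eq_one_or (Equiv.Perm.sign π) with h | h
    · rw [h, one_smul]; exact h1
    · rw [h, Units.neg_smul, one_smul]; exact Submodule.neg_mem _ h1
  refine MvPolynomial.eq_zero_of_eval_zero_at_prod_finset _ (fun _ => S) ?_ ?_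
  · intro j
    exact lt_of_le_of_lt ((MvPolynomial.degreeOf_le_totalDegree _ _).trans hdet.totalDegree_le) hS
  · intro u _
    obtain ⟨q, hq0, hqe, hq⟩ := hdeg u
    set ε : MvPolynomial (Fin n) F →ₐ[F] F := MvPolynomial.aeval u with hε
    have hy : red ε (gen x) = ∑ i, u i • x i := by
      rw [gen, map_sum]
      refine Finset.sum_congr rfl fun i _ => ?_
      rw [red_tmul, hε, MvPolynomial.aeval_X]
    generalize (∑ i, u i • x i) = Y at hq hy
    have h1 : MvPolynomial.eval u M.det = ε M.det := by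
      rw [← MvPolynomial.coe_aeval_eq_eval]
      rfl
    rw [h1, AlgHom.map_det, ← Matrix.exists_mulVec_eq_zero_iff]
    refine ⟨fun b => q.coeff b, ?_, ?_⟩
    · intro h0
      apply hq0
      ext j
      rw [Polynomial.coeff_zero]
      rcases Nat.lt_or_ge j (e + 1) with h | h
      · exact congrFun h0 ⟨j, h⟩
      · exact Polynomial.coeff_eq_zero_of_natDegree_lt (by omega)
    · funext a
      simp only [Matrix.mulVec, dotProduct, Pi.zero_apply, AlgHom.mapMatrix_apply, Matrix.map_apply]
      have h2 : ∀ b : Fin (e + 1), ε (M a b) =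
          (i a).2 (((LieAlgebra.ad F L Y) ^ (b : ℕ)) (i a).1) := by
        intro b
        rw [hM, Matrix.of_apply, opCoord_apply, coord_red, hD, ad_red_pow, hy, red_tmul, map_one,
          one_smul]
      have h3 := congrArg (fun f => (i a).2 (f (i a).1)) hq
      rw [Polynomial.aeval_eq_sum_range' (Nat.lt_succ_iff.2 hqe)] at h3
      simp only [LinearMap.sum_apply, LinearMap.smul_apply, map_sum, map_smul,
        LinearMap.zero_apply, map_zero, smul_eq_mul] at h3
      rw [← h3, ← Fin.sum_univ_eq_sum_range (fun b => q.coeff b *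
        (i a).2 (((LieAlgebra.ad F L Y) ^ b) (i a).1)) (e + 1)]
      refine Finset.sum_congr rfl fun b _ => ?_
      rw [h2, mul_comm]


/-- the relation of the generic element -/
theorem relDeg {F : Type u} [Field F] {L : Type v} [LieRing L] [LieAlgebra F L] {n : ℕ}
    (x : Fin n → L) (e : ℕ) (S : Finset F) (hS : e * (e + 1) / 2 < S.card)
    (hdeg : ∀ u : Fin n → F, ∃ q : Polynomial F, q ≠ 0 ∧ q.natDegree ≤ e ∧
      Polynomial.aeval (LieAlgebra.ad F L (∑ i, u i • x i)) q = 0) :
    ∃ (e' : ℕ) (c : Fin e' → MvPolynomial (Fin n) F), e' ≤ e ∧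
      (∀ j, (c j).IsHomogeneous (e' - j)) ∧
      (LieAlgebra.ad (MvPolynomial (Fin n) F) (MvPolynomial (Fin n) F ⊗[F] L) (gen x)) ^ e' +
      ∑ j : Fin e', c j • (LieAlgebra.ad (MvPolynomial (Fin n) F)
        (MvPolynomial (Fin n) F ⊗[F] L) (gen x)) ^ (j : ℕ) = 0 := by
  have hdep := deg_dep x e S hS hdeg
  set D := LieAlgebra.ad (MvPolynomial (Fin n) F) (MvPolynomial (Fin n) F ⊗[F] L) (gen x) with hD
  have htf : ∀ (a : MvPolynomial (Fin n) F)
      (b : Module.End (MvPolynomial (Fin n) F) (MvPolynomial (Fin n) F ⊗[F] L)),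
      a ≠ 0 → a • b = 0 → b = 0 := by
    intro a b ha hab
    exact (smul_eq_zero.1 hab).resolve_left ha
  obtain ⟨R, hR, hRD⟩ := monic_of_dep htf (opCoord F (MvPolynomial (Fin n) F))
    (opCoord_sep (MvPolynomial (Fin n) F)) D e hdep
  rw [Fintype.not_linearIndependent_iff] at hdep
  obtain ⟨c, hc, i1, hi1⟩ := hdep
  have hcoeff : (∑ i : Fin (e + 1), Polynomial.C (c i) * Polynomial.X ^ (i : ℕ)).coeff i1 =
      c i1 := by
    rw [Polynomial.finsetSum_coeff, Finset.sum_eq_single i1]
    · rw [Polynomial.coeff_C_mul_X_pow, if_pos rfl]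
    · intro j _ hj
      rw [Polynomial.coeff_C_mul_X_pow, if_neg]
      intro h
      exact hj (Fin.ext h.symm)
    · intro h
      exact absurd (Finset.mem_univ i1) h
  have hP : (∑ i : Fin (e + 1), Polynomial.C (c i) * Polynomial.X ^ (i : ℕ)) ≠ 0 := by
    intro h0
    apply hi1
    rw [← hcoeff, h0, Polynomial.coeff_zero]
  have hPD : Polynomial.aeval D
      (∑ i : Fin (e + 1), Polynomial.C (c i) * Polynomial.X ^ (i : ℕ)) = 0 := by
    rw [map_sum, ← hc]
    refine Finset.sum_congr rfl fun i _ => ?_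
    rw [map_mul, Polynomial.aeval_C, map_pow, Polynomial.aeval_X, Algebra.smul_def]
  have hPdeg : (∑ i : Fin (e + 1), Polynomial.C (c i) * Polynomial.X ^ (i : ℕ)).natDegree ≤ e := by
    refine Polynomial.natDegree_sum_le_of_forall_le _ _ fun i _ => ?_
    exact (Polynomial.natDegree_C_mul_X_pow_le _ _).trans (Nat.lt_succ_iff.1 i.2)
  obtain ⟨Q, hQm, hQdeg, hQD⟩ := gauss htf D _ hR hRD _ hP hPD
  have hQ : D ^ Q.natDegree + ∑ j : Fin Q.natDegree, Q.coeff j • D ^ (j : ℕ) = 0 := by
    rw [← hQD, Polynomial.aeval_eq_sum_range, Finset.sum_range_succ, hQm.coeff_natDegree,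
      one_smul, add_comm, Finset.sum_range]
  obtain ⟨c', hc', hc''⟩ := homog x Q.natDegree (fun j => Q.coeff j) hQ
  exact ⟨Q.natDegree, c', hQdeg.trans hPdeg, hc', hc''⟩

end PerE
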