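import Pool.Agent.Lib.PerE.Deg

set_option autoImplicit false

/-!
# Subspaces of bounded degree: the bound
-/

namespace PerE

open Module
open scoped TensorProduct

universe u v w

variable {p : ℕ} [Fact p.Prime] {F : Type u} [Field F] [CharP F p] {L : Type v} [LieRing L]
  [LieAlgebra F L]

/-- centre zero: independent families -/
theorem deg_core (h : Per p F L) (hF : Alg p F) (hZ : Ctr0 L) {n : ℕ} (x : Fin n → L)
    (hx : LinearIndependent F x) (e : ℕ) (S : Finset F) (hS : e * (e + 1) / 2 < S.card)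
    (hdeg : ∀ u : Fin n → F, ∃ q : Polynomial F, q ≠ 0 ∧ q.natDegree ≤ e ∧
      Polynomial.aeval (LieAlgebra.ad F L (∑ i, u i • x i)) q = 0) :
    n ≤ e * (e - 1) / 2 := by
  by_contra hn
  rw [not_le] at hn
  obtain ⟨e', c, he', hc, hrel⟩ := relDeg x e S hS hdeg
  have hgen : gen (F := F) x ≠ 0 := by
    intro h0
    have hn0 : 0 < n := by omega
    have h1 := congrArg (red (MvPolynomial.aeval (Pi.single ⟨0, hn0⟩ (1 : F)) :
      MvPolynomial (Fin n) F →ₐ[F] F)) h0
    rw [gen, map_sum, map_zero, Finset.sum_eq_single ⟨0, hn0⟩] at h1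
    · rw [red_tmul, MvPolynomial.aeval_X, Pi.single_eq_same, one_smul] at h1
      exact hx.ne_zero _ h1
    · intro i _ hi
      rw [red_tmul, MvPolynomial.aeval_X, Pi.single_eq_of_ne hi, zero_smul]
    · intro hh
      exact absurd (Finset.mem_univ _) hh
  have hDgen : LieAlgebra.ad (MvPolynomial (Fin n) F) (MvPolynomial (Fin n) F ⊗[F] L) (gen x)
      (gen x) = 0 := by
    rw [LieAlgebra.ad_apply, lie_self]
  -- the constant coefficient
  obtain ⟨e'', rfl⟩ : ∃ e'', e' = e'' + 1 := by
    rcases Nat.eq_zero_or_pos e' with h0 | h0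
    · subst h0
      have h1 := congrArg (fun f => f (gen x)) hrel
      simp only [pow_zero, LinearMap.zero_apply, Finset.univ_eq_empty, Finset.sum_empty,
        add_zero] at h1
      exact absurd h1 hgen
    · exact ⟨e' - 1, by omega⟩
  have hc0 : c 0 = 0 := by
    have h1 := congrArg (fun f => f (gen x)) hrel
    simp only [LinearMap.add_apply, LinearMap.zero_apply, LinearMap.sum_apply,
      LinearMap.smul_apply] at h1
    rw [Fin.sum_univ_succ] at h1
    have h2 : ∀ k : ℕ, ((LieAlgebra.ad (MvPolynomial (Fin n) F)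
        (MvPolynomial (Fin n) F ⊗[F] L) (gen x)) ^ (k + 1)) (gen x) = 0 := by
      intro k
      rw [pow_succ, Module.End.mul_apply, hDgen, map_zero]
    simp only [Fin.val_succ, Fin.val_zero, pow_zero, Module.End.one_apply, h2, smul_zero,
      Finset.sum_const_zero, add_zero, zero_add] at h1
    exact (smul_eq_zero.1 h1).resolve_right hgen
  have hsum : ∑ j : Fin e'', (e'' - (j : ℕ)) < n := by
    have h1 : ∑ j : Fin e'', (e'' - (j : ℕ)) = e'' * (e'' + 1) / 2 := by
      rw [Fin.sum_univ_eq_sum_range (fun j => e'' - j) e'', ← Finset.sum_range_reflect]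
      have h2 : ∀ j ∈ Finset.range e'', e'' - (e'' - 1 - j) = j + 1 := by
        intro j hj
        rw [Finset.mem_range] at hj
        omega
      rw [Finset.sum_congr rfl h2, Finset.sum_add_distrib, Finset.sum_range_id, Finset.sum_const,
        Finset.card_range, smul_eq_mul, mul_one]
      rcases Nat.eq_zero_or_pos e'' with h0 | h0
      · subst h0; rfl
      · obtain ⟨k, rfl⟩ : ∃ k, e'' = k + 1 := ⟨e'' - 1, by omega⟩
        have h3 : (k + 1) * (k + 1 + 1) = (k + 1) * (k + 1 - 1) + (k + 1) * 2 := by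
          rw [Nat.add_sub_cancel]; ring
        rw [h3, Nat.add_mul_div_right _ _ (by norm_num)]
    have h2 : e'' * (e'' + 1) ≤ e * (e - 1) := by
      obtain ⟨k, rfl⟩ : ∃ k, e = k + 1 := ⟨e - 1, by omega⟩
      rw [Nat.add_sub_cancel, mul_comm (k + 1)]
      exact Nat.mul_le_mul (by omega) (by omega)
    rw [h1]
    exact lt_of_le_of_lt (Nat.div_le_div_right h2) hn
  obtain ⟨v, hv, hev⟩ := cw hF (fun j : Fin e'' => c j.succ) (fun j => e'' - (j : ℕ))
    (fun j => Nat.sub_pos_of_lt j.2) (fun j => by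
      have h1 := hc j.succ
      have h2 : e'' + 1 - ((j.succ : Fin (e'' + 1)) : ℕ) = e'' - (j : ℕ) := by
        rw [Fin.val_succ]; omega
      rw [h2] at h1
      exact h1) hsum
  set ε : MvPolynomial (Fin n) F →ₐ[F] F := MvPolynomial.aeval v with hε
  have hy : red ε (gen x) = ∑ i, v i • x i := by
    rw [gen, map_sum]
    refine Finset.sum_congr rfl fun i _ => ?_
    rw [red_tmul, hε, MvPolynomial.aeval_X]
  have hy0 : ∑ i, v i • x i ≠ 0 := by
    intro h0
    exact hv (funext fun i => Fintype.linearIndependent_iff.1 hx v h0 i)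
  apply hy0
  apply hZ
  intro z
  apply kill h _ z (e'' + 1)
  have h1 := congrArg (fun f => red ε (f (1 ⊗ₜ[F] z))) hrel
  simp only [LinearMap.add_apply, LinearMap.sum_apply, LinearMap.smul_apply, map_add, map_sum,
    LinearMap.zero_apply, map_zero, bd_red_smul, ad_red_pow, red_tmul, map_one, one_smul] at h1
  rw [hy] at h1
  have h2 : ∀ j : Fin (e'' + 1), ε (c j) = 0 := by
    intro j
    refine Fin.cases ?_ ?_ j
    · rw [hc0, map_zero]
    · intro j
      have := hev j
      rwa [← MvPolynomial.coe_aeval_eq_eval] at this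
  simpa [h2] using h1

omit [Fact p.Prime] [CharP F p] in
theorem deg_aeval_quot (x : L) (q : Polynomial F) (hq : Polynomial.aeval (LieAlgebra.ad F L x) q = 0) :
    Polynomial.aeval (LieAlgebra.ad F (L ⧸ LieAlgebra.center F L)
      (LieSubmodule.Quotient.mk (N := LieAlgebra.center F L) x)) q = 0 := by
  refine LinearMap.ext fun z => ?_
  obtain ⟨z, rfl⟩ := Base_surj (F := F) z
  have h1 := congrArg (fun f => (LieSubmodule.Quotient.mk' (LieAlgebra.center F L)) (f z)) hq
  rw [Polynomial.aeval_eq_sum_range] at h1 ⊢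
  simp only [LinearMap.sum_apply, LinearMap.smul_apply, map_sum, map_smul, LinearMap.zero_apply,
    map_zero] at h1 ⊢
  rw [← h1]
  refine Finset.sum_congr rfl fun j _ => ?_
  rw [Base_mk_pow]
  rfl

/-- a subspace of bounded degree is finite dimensional modulo the centre -/
theorem deg_bound (h : Per p F L) (V : Submodule F L) (e : ℕ) (S : Finset F)
    (hS : e * (e + 1) / 2 < S.card)
    (hdeg : ∀ v ∈ V, ∃ q : Polynomial F, q ≠ 0 ∧ q.natDegree ≤ e ∧
      Polynomial.aeval (LieAlgebra.ad F L v) q = 0) :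
    Module.rank F (V.map (LieAlgebra.center F L).toSubmodule.mkQ) ≤ (e * (e - 1) / 2 : ℕ) := by
  classical
  have hQ : Per p F (L ⧸ LieAlgebra.center F L) := per_quot h
  have hZ : Ctr0 (L ⧸ LieAlgebra.center F L) := ctr0_quot h
  refine rank_le fun s hs => ?_
  by_cases hs0 : s.card = 0
  · rw [hs0]; exact Nat.zero_le _
  -- the family
  let b : Fin s.card ≃ s := (s.equivFin).symm
  let x : Fin s.card → L ⧸ LieAlgebra.center F L := fun i => (b i).1.1
  have hx : LinearIndependent F x := by
    have h1 : LinearIndependent F (fun i : Fin s.card =>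
        ((b i : s) : V.map (LieAlgebra.center F L).toSubmodule.mkQ)) := hs.comp b b.injective
    exact h1.map' (Submodule.subtype _) (Submodule.ker_subtype _)
  have hmem : ∀ u : Fin s.card → F, ∃ v ∈ V,
      LieSubmodule.Quotient.mk (N := LieAlgebra.center F L) v = ∑ i, u i • x i := by
    intro u
    have h1 : (∑ i, u i • x i) ∈ V.map (LieAlgebra.center F L).toSubmodule.mkQ :=
      Submodule.sum_mem _ fun i _ => Submodule.smul_mem _ _ (b i).1.2
    obtain ⟨v, hv, hv'⟩ := h1
    exact ⟨v, hv, hv'⟩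
  have hF : Alg p F := by
    have hpos : 0 < s.card := Nat.pos_of_ne_zero hs0
    refine alg_of hQ (x ⟨0, hpos⟩) ?_
    intro h0
    apply hx.ne_zero ⟨0, hpos⟩
    apply hZ
    intro y
    have := LinearMap.congr_fun h0 y
    simpa using this
  refine deg_core hQ hF hZ x hx e S hS fun u => ?_
  obtain ⟨v, hv, hv'⟩ := hmem u
  obtain ⟨q, hq0, hqe, hq⟩ := hdeg v hv
  refine ⟨q, hq0, hqe, ?_⟩
  rw [← hv']
  exact deg_aeval_quot v q hq

/-- centralisers which are of bounded degree modulo a smaller centraliser -/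
theorem deg_codim (h : Per p F L) (V : Submodule F L) (e : ℕ) (S : Finset F)
    (hS : e * (e + 1) / 2 < S.card)
    (hdeg : ∀ v ∈ V, ∃ q : Polynomial F, q ≠ 0 ∧ q.natDegree ≤ e ∧
      Polynomial.aeval (LieAlgebra.ad F L v) q = 0) (X Y : Set L)
    (hX : ∀ x ∈ X, ∀ y ∈ X, ⁅x, y⁆ = 0) (hV : cent F X ≤ V ⊔ cent F (X ∪ Y)) :
    ∀ x ∈ X ∪ Y, ∀ y ∈ X ∪ Y, ⁅x, y⁆ = 0 := by
  have hfin : FiniteDimensional F (V.map (LieAlgebra.center F L).toSubmodule.mkQ) := by
    have h1 := deg_bound h V e S hS hdeg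
    exact Module.rank_lt_aleph0_iff.1 (h1.trans_lt Cardinal.natCast_lt_aleph0)
  have hle : (LieAlgebra.center F L).toSubmodule ≤ cent F (X ∪ Y) := by
    intro z hz x _
    exact (LieModule.mem_maxTrivSubmodule F L L z).mp hz x
  have hmap : V.map (cent F (X ∪ Y)).mkQ =
      (V.map (LieAlgebra.center F L).toSubmodule.mkQ).map (Submodule.factor hle) := by
    rw [← Submodule.map_comp, Submodule.factor_comp_mk]
  refine codim h X Y hX ?_
  have h2 : (cent F X).map (cent F (X ∪ Y)).mkQ ≤ V.map (cent F (X ∪ Y)).mkQ := by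
    refine (Submodule.map_mono hV).trans ?_
    rw [Submodule.map_sup, Submodule.mkQ_map_self, sup_bot_eq]
  have h3 : FiniteDimensional F (V.map (cent F (X ∪ Y)).mkQ) := by
    rw [hmap]
    infer_instance
  exact Submodule.finiteDimensional_of_le h2

end PerE
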