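import Mathlib

set_option autoImplicit false
set_option linter.style.haveILetI false

/-!
# A determinant of additive polynomials

`c a i j : F`, `c a i i = δ a i`. The determinant of `g a i = ∑ j, X j ^ (p ^ i) * C (c a i j)` is nonzero:
its coefficient at the monomial `∏ X i ^ (p ^ i)` is `det (δ a i) = 1`.
-/

namespace PerE

open MvPolynomial Finset

universe u

namespace DetCoeffAux

theorem eq_id_of_sum_pow {p k : ℕ} (hp : 1 < p) (φ : Fin k → Fin k)
    (h : ∀ j, ∑ i ∈ univ.filter (fun i => φ i = j), p ^ (i : ℕ) = p ^ (j : ℕ)) : φ = id := by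
  classical
  have hsurj : Function.Surjective φ := by
    intro j
    by_contra hne
    push Not at hne
    have h1 := h j
    rw [Finset.filter_false_of_mem (fun i _ => hne i), Finset.sum_empty] at h1
    have : 0 < p ^ (j : ℕ) := Nat.pow_pos (by omega)
    omega
  have hinj : Function.Injective φ := Finite.injective_iff_surjective.2 hsurj
  funext i
  have h1 := h (φ i)
  have h2 : univ.filter (fun i' => φ i' = φ i) = {i} := by
    ext i'
    simp only [mem_filter, mem_univ, true_and, mem_singleton]
    exact ⟨fun e => hinj e, fun e => by rw [e]⟩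
  rw [h2, Finset.sum_singleton] at h1
  have h3 := Nat.pow_right_injective hp h1
  exact (Fin.ext h3).symm

theorem prod_monomial {σ ι R : Type*} [CommSemiring R] (s : Finset ι) (u : ι → σ →₀ ℕ)
    (a : ι → R) : ∏ i ∈ s, monomial (u i) (a i) = monomial (∑ i ∈ s, u i) (∏ i ∈ s, a i) := by
  classical
  induction s using Finset.induction_on with
  | empty => simp
  | insert i s hi ih =>
    rw [Finset.prod_insert hi, ih, Finset.sum_insert hi, Finset.prod_insert hi,
      MvPolynomial.monomial_mul]

/-- the determinant of Lemma G -/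
theorem det_ne_zero {R : Type*} [CommRing R] [Nontrivial R] {p k : ℕ} (hp : 1 < p)
    (c : Fin k → Fin k → Fin k → R) (hc : ∀ a i, c a i i = if a = i then 1 else 0) :
    (Matrix.of fun a i : Fin k => ∑ j, C (c a i j) * (X j : MvPolynomial (Fin k) R) ^ p ^ (i : ℕ)).det
      ≠ 0 := by
  classical
  intro h0
  let u : Fin k →₀ ℕ := Finsupp.equivFunOnFinite.symm fun j => p ^ (j : ℕ)
  have h1 : MvPolynomial.coeff u
      (Matrix.of fun a i : Fin k => ∑ j, C (c a i j) * (X j : MvPolynomial (Fin k) R) ^ p ^ (i : ℕ)).det
      = 1 := by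
    rw [Matrix.det_apply, MvPolynomial.coeff_sum]
    have h2 : ∀ π : Equiv.Perm (Fin k), MvPolynomial.coeff u (Equiv.Perm.sign π • ∏ i,
        (Matrix.of fun a i : Fin k => ∑ j, C (c a i j) * (X j : MvPolynomial (Fin k) R) ^ p ^ (i : ℕ))
          (π i) i) = if π = 1 then 1 else 0 := by
      intro π
      have h3 : (∏ i, (Matrix.of fun a i : Fin k =>
          ∑ j, C (c a i j) * (X j : MvPolynomial (Fin k) R) ^ p ^ (i : ℕ)) (π i) i) =
          ∑ φ : Fin k → Fin k, monomial (∑ i, Finsupp.single (φ i) (p ^ (i : ℕ)))
            (∏ i, c (π i) i (φ i)) := by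
        simp only [Matrix.of_apply]
        rw [Finset.prod_univ_sum]
        simp only [Fintype.piFinset_univ]
        refine Finset.sum_congr rfl fun φ _ => ?_
        rw [← prod_monomial]
        refine Finset.prod_congr rfl fun i _ => ?_
        rw [MvPolynomial.C_mul_X_pow_eq_monomial]
      have h4 : ∀ φ : Fin k → Fin k, (∑ i, Finsupp.single (φ i) (p ^ (i : ℕ))) = u ↔ φ = id := by
        intro φ
        constructor
        · intro h
          refine eq_id_of_sum_pow hp φ fun j => ?_
          have h5 := DFunLike.congr_fun h j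
          rw [Finsupp.finsetSum_apply] at h5
          simp only [Finsupp.single_apply] at h5
          rw [← Finset.sum_filter] at h5
          exact h5
        · rintro rfl
          ext j
          rw [Finsupp.finsetSum_apply]
          simp only [Finsupp.single_apply, id]
          rw [Finset.sum_ite_eq' ]
          simp [u]
      have h5 : MvPolynomial.coeff u (∏ i, (Matrix.of fun a i : Fin k =>
          ∑ j, C (c a i j) * (X j : MvPolynomial (Fin k) R) ^ p ^ (i : ℕ)) (π i) i) =
          ∏ i, c (π i) i i := by
        rw [h3, MvPolynomial.coeff_sum]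
        simp only [MvPolynomial.coeff_monomial, h4]
        rw [Finset.sum_ite_eq' univ id]
        simp
      have h6 : (∏ i, c (π i) i i) = if π = 1 then 1 else 0 := by
        split_ifs with h
        · subst h
          refine Finset.prod_eq_one fun i _ => ?_
          rw [hc]
          simp
        · obtain ⟨i, hi⟩ : ∃ i, π i ≠ i := by
            by_contra hne
            push Not at hne
            exact h (Equiv.ext hne)
          refine Finset.prod_eq_zero (Finset.mem_univ i) ?_
          rw [hc, if_neg hi]
      have h7 : MvPolynomial.coeff u (Equiv.Perm.sign π • ∏ i,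
          (Matrix.of fun a i : Fin k => ∑ j, C (c a i j) * (X j : MvPolynomial (Fin k) R) ^ p ^ (i : ℕ))
          (π i) i) = Equiv.Perm.sign π • MvPolynomial.coeff u (∏ i,
          (Matrix.of fun a i : Fin k => ∑ j, C (c a i j) * (X j : MvPolynomial (Fin k) R) ^ p ^ (i : ℕ))
          (π i) i) := by
        rcases Int.units_eq_one_or (Equiv.Perm.sign π) with h | h
        · rw [h, one_smul, one_smul]
        · rw [h, Units.neg_smul, one_smul, MvPolynomial.coeff_neg, Units.neg_smul, one_smul]
      rw [h7, h5, h6]
      split_ifs with h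
      · subst h
        simp
      · simp
    rw [Finset.sum_congr rfl fun π _ => h2 π, Finset.sum_ite_eq']
    simp
  rw [h0, MvPolynomial.coeff_zero] at h1
  exact zero_ne_one h1

end DetCoeffAux

theorem det_coeff (p : ℕ) [Fact p.Prime] (F : Type u) [Field F] (k : ℕ)
    (c : Fin k → Fin k → Fin k → F) (hc : ∀ a i, c a i i = if a = i then 1 else 0) :
    (Matrix.of (fun a i : Fin k => ∑ j : Fin k,
      (X j : MvPolynomial (Fin k) F) ^ (p ^ (i : ℕ)) * C (c a i j))).det ≠ 0 := by
  have h := DetCoeffAux.det_ne_zero (R := F) (p := p) (k := k) (Fact.out : p.Prime).one_lt c hc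
  simp only [mul_comm (C _)] at h
  exact h

end PerE
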