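import Pool.Agent.Lib.PerE.Base
import Pool.Agent.Lib.PerE.CW

set_option autoImplicit false

/-!
# The finite dimensional case

`trailing`: `(ad x) ^ (p ^ m) = ad x`, so the generalized kernel (`maxGenEigenspace 0`) of `ad x` is its kernel (`kill`);
`LinearMap.finrank_maxGenEigenspace_zero_eq`.

`fin_case`: `b` a basis of `L` (`Module.finBasis`, index `Fin n`, `n = finrank F L`), `φ = (LieAlgebra.ad F L : L →ₗ End)`,
`f = (LinearMap.polyCharpoly φ b).coeff r`, homogeneous of degree `n - r` (`LinearMap.polyCharpoly_coeff_isHomogeneous`, `0 < n - r < n`). `cw` with `e = 1`: a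
nonzero `v` with `eval v f = 0`; `x = ∑ v i • b i ≠ 0`, `eval v f = (charpoly (ad x)).coeff r` (`LinearMap.polyCharpoly_coeff_eval`), but
`natTrailingDegree (charpoly (ad x)) = finrank (ker (ad x)) = r` and the trailing coefficient is not zero.
-/

namespace PerE

open Module

universe u v

variable {p : ℕ} [Fact p.Prime] {F : Type u} [Field F] [CharP F p] {L : Type v} [LieRing L]
  [LieAlgebra F L]

omit [CharP F p] in
/-- the generalized kernel of `ad x` is its kernel -/
theorem finCase_maxGen (h : Per p F L) (x : L) :
    (LieAlgebra.ad F L x).maxGenEigenspace 0 = LinearMap.ker (LieAlgebra.ad F L x) := by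
  ext m
  rw [Module.End.mem_maxGenEigenspace, LinearMap.mem_ker]
  constructor
  · rintro ⟨j, hj⟩
    have hj' : ((LieAlgebra.ad F L x) ^ j) m = 0 := by simpa using hj
    have := kill h x m j hj'
    simpa using this
  · intro hm
    exact ⟨1, by simpa using hm⟩

theorem trailing [FiniteDimensional F L] (h : Per p F L) (x : L) :
    (LieAlgebra.ad F L x).charpoly.natTrailingDegree =
      finrank F (LinearMap.ker (LieAlgebra.ad F L x)) := by
  rw [← LinearMap.finrank_maxGenEigenspace_zero_eq (LieAlgebra.ad F L x), finCase_maxGen h x]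

theorem fin_case [FiniteDimensional F L] (h : Per p F L) (hF : Alg p F) (r : ℕ) (hr : 0 < r)
    (hrn : r < finrank F L)
    (hC : ∀ x : L, x ≠ 0 → finrank F (LinearMap.ker (LieAlgebra.ad F L x)) = r) : False := by
  classical
  let b := Module.finBasis F L
  let φ : L →ₗ[F] Module.End F L := (LieAlgebra.ad F L : L →ₗ[F] Module.End F L)
  have hhom : ((LinearMap.polyCharpoly φ b).coeff r).IsHomogeneous (finrank F L - r) :=
    LinearMap.polyCharpoly_coeff_isHomogeneous φ b r _ (by omega)
  obtain ⟨c, hc0, hc⟩ := cw hF (n := finrank F L) (e := 1)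
    (fun _ => (LinearMap.polyCharpoly φ b).coeff r) (fun _ => finrank F L - r)
    (fun _ => by omega) (fun _ => hhom) (by simp; omega)
  let v : L := b.repr.symm (Finsupp.equivFunOnFinite.symm c)
  have hv : v ≠ 0 := by
    intro h0
    apply hc0
    have h1 : b.repr v = 0 := by rw [h0, map_zero]
    have h2 : Finsupp.equivFunOnFinite.symm c = 0 := by simpa [v] using h1
    have h3 := congrArg Finsupp.equivFunOnFinite h2
    rw [Equiv.apply_symm_apply] at h3
    rw [h3]; rfl
  have hcoef : (φ v).charpoly.coeff r = 0 := by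
    rw [← LinearMap.polyCharpoly_coeff_eval φ b v r]
    have : (⇑(b.repr v) : Fin (finrank F L) → F) = c := by
      simp [v]
    rw [this]
    exact hc 0
  have h1 : (φ v).charpoly.natTrailingDegree = r := (trailing h v).trans (hC v hv)
  have h2 : (φ v).charpoly.coeff (φ v).charpoly.natTrailingDegree ≠ 0 := by
    have := Polynomial.trailingCoeff_nonzero_iff_nonzero.2 (φ v).charpoly_monic.ne_zero
    exact this
  rw [h1] at h2
  exact h2 hcoef

end PerE
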