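import Mathlib

set_option autoImplicit false

/-!
# Integral and algebraic of degree at most `d` gives a monic relation of degree at most `d`

`K = FractionRing A`, `G = gcd (P, R)` in `K[X]`, made monic (`normalize` or `gcd` of `EuclideanDomain` divided by its leading
coefficient); `G ∣ R.map`, so by `IsIntegrallyClosed.eq_map_mul_C_of_dvd` (`Mathlib/RingTheory/Polynomial/GaussLemma.lean`)
`G = Q.map (algebraMap A K)` with `Q` monic (`Polynomial.Monic` of the map, injective map). `natDegree Q ≤ natDegree P` as `G ∣ P.map`, `P ≠ 0`.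
`G = a * P + b * R` in `K[X]` (Bezout); clear denominators (`IsLocalization.integerNormalization` or a common denominator of the coefficients
of `a` and `b`): `δ • Q = a' * P + b' * R` in `A[X]` with `δ ≠ 0`; so `δ • aeval D Q = 0`, and `aeval D Q = 0` by `htf`.
-/

namespace PerE

open Polynomial

universe v w

private theorem gauss_monic {A : Type*} [CommRing A] [IsDomain A] [IsIntegrallyClosed A]
    {E : Type*} [Ring E] [Algebra A E]
    (htf : ∀ (a : A) (e : E), a ≠ 0 → a • e = 0 → e = 0) (D : E) (P R : A[X])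
    (hP : P.Monic) (hPD : aeval D P = 0) (hR : R ≠ 0) (hRD : aeval D R = 0) :
    ∃ Q : A[X], Q.Monic ∧ Q.natDegree ≤ R.natDegree ∧ aeval D Q = 0 := by
  classical
  let K := FractionRing A
  have hinj : Function.Injective (algebraMap A K) := IsFractionRing.injective A K
  have hmapinj : Function.Injective (Polynomial.map (algebraMap A K)) :=
    Polynomial.map_injective _ hinj
  have hRK0 : R.map (algebraMap A K) ≠ 0 := by
    intro h
    exact hR (hmapinj (by rw [h, Polynomial.map_zero]))
  obtain ⟨g, u, v, hg0, hgP, hgR, hbez⟩ : ∃ g u v : K[X], g ≠ 0 ∧ g ∣ P.map (algebraMap A K) ∧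
      g ∣ R.map (algebraMap A K) ∧ g = P.map (algebraMap A K) * u + R.map (algebraMap A K) * v :=
    ⟨EuclideanDomain.gcd (P.map (algebraMap A K)) (R.map (algebraMap A K)), _, _,
      fun h => hRK0 (EuclideanDomain.gcd_eq_zero_iff.mp h).2,
      EuclideanDomain.gcd_dvd_left _ _, EuclideanDomain.gcd_dvd_right _ _,
      EuclideanDomain.gcd_eq_gcd_ab _ _⟩
  obtain ⟨g', hg'⟩ := IsIntegrallyClosed.eq_map_mul_C_of_dvd K hP hgP
  have hlc0 : g.leadingCoeff ≠ 0 := leadingCoeff_ne_zero.mpr hg0
  generalize hc : g.leadingCoeff = c at hg' hlc0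
  have hmon : g'.Monic := by
    have h1 : (g'.map (algebraMap A K)).leadingCoeff * c = c := by
      conv_rhs => rw [← hc, ← hg']
      rw [leadingCoeff_mul, leadingCoeff_C]
    have h2 : (g'.map (algebraMap A K)).leadingCoeff = 1 :=
      mul_right_cancel₀ hlc0 (h1.trans (one_mul _).symm)
    rw [leadingCoeff_map_of_injective hinj] at h2
    exact hinj (by rw [h2, map_one])
  have hbez' : g'.map (algebraMap A K) =
      P.map (algebraMap A K) * (u * C c⁻¹) + R.map (algebraMap A K) * (v * C c⁻¹) := by
    have h1 : g'.map (algebraMap A K) = g * C (c⁻¹) := by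
      rw [← hg', mul_assoc, ← C_mul, mul_inv_cancel₀ hlc0, C_1, mul_one]
    rw [h1, hbez]
    ring
  obtain ⟨b1, hb1m, hb1⟩ := IsLocalization.integerNormalization_spec (nonZeroDivisors A) (u * C c⁻¹)
  obtain ⟨b2, hb2m, hb2⟩ := IsLocalization.integerNormalization_spec (nonZeroDivisors A) (v * C c⁻¹)
  generalize IsLocalization.integerNormalization (nonZeroDivisors A) (u * C c⁻¹) = X1 at hb1
  generalize IsLocalization.integerNormalization (nonZeroDivisors A) (v * C c⁻¹) = Y1 at hb2
  have hkey : C (b1 * b2) * g' = P * (C b2 * X1) + R * (C b1 * Y1) := by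
    apply hmapinj
    have e1 : ∀ (b : A) (q : K[X]), b • q = C (algebraMap A K b) * q := by
      intro b q
      rw [← smul_eq_C_mul, algebraMap_smul]
    rw [e1] at hb1 hb2
    simp only [Polynomial.map_mul, Polynomial.map_add, map_C, hb1, hb2, hbez']
    rw [map_mul, C_mul]
    ring
  refine ⟨g', hmon, ?_, ?_⟩
  · have hdvd : g'.map (algebraMap A K) ∣ R.map (algebraMap A K) :=
      dvd_trans ⟨C c, hg'.symm⟩ hgR
    have := natDegree_le_of_dvd hdvd hRK0
    rwa [natDegree_map_eq_of_injective hinj, natDegree_map_eq_of_injective hinj] at this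
  · have h1 := congrArg (aeval D) hkey
    simp only [map_mul, map_add, aeval_C, hPD, hRD, zero_mul, add_zero] at h1
    apply htf (b1 * b2) _ (mul_ne_zero (nonZeroDivisors.ne_zero hb1m) (nonZeroDivisors.ne_zero hb2m))
    rw [Algebra.smul_def, map_mul]
    exact h1

theorem gauss {A : Type w} [CommRing A] [IsDomain A] [IsIntegrallyClosed A] {B : Type v} [Ring B]
    [Algebra A B] (htf : ∀ (a : A) (b : B), a ≠ 0 → a • b = 0 → b = 0) (D : B)
    (R : A[X]) (hR : R.Monic) (hRD : aeval D R = 0)
    (P : A[X]) (hP : P ≠ 0) (hPD : aeval D P = 0) :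
    ∃ Q : A[X], Q.Monic ∧ Q.natDegree ≤ P.natDegree ∧ aeval D Q = 0 :=
  gauss_monic htf D R P hR hRD hP hPD

end PerE
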