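import Pool.Agent.Lib.PerE.Defs

set_option autoImplicit false

/-!
# Homogeneous relations

`A = MvPolynomial (Fin n) F`, `D = ad (gen x)`, `gen x = ∑ X i ⊗ x i`. `hc d = rTensor L (homogeneousComponent d) : A ⊗ L → A ⊗ L` (over `F`).
`hc (d + 1) (D z) = D (hc d z)` and `hc 0 (D z) = 0`. So `D ^ j (1 ⊗ y)` is its own component of degree `j` and
`hc e (q • D ^ j (1 ⊗ y)) = (homogeneousComponent (e - j) q) • D ^ j (1 ⊗ y)` (for `z` with `hc j z = z` and the other components zero; enough for
`z = a ⊗ y`, `a` homogeneous of degree `j`: describe the degree `j` part of `A ⊗ L` as the span of the `a ⊗ y`, `a` homogeneous of degree `j`;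
`D` maps the part of degree `j` to the part of degree `j + 1`). Take the component of degree `e` of the relation applied to
`1 ⊗ y`: the relation holds with `c j = homogeneousComponent (e - j) (q j)` on the `1 ⊗ y`, which generate `A ⊗ L` over `A`.
-/

namespace PerE

open Module
open scoped TensorProduct

universe u v

/-- the component of a product with a homogeneous polynomial -/
theorem homog_comp_mul {F : Type u} [Field F] {n : ℕ} {j : ℕ} {a : MvPolynomial (Fin n) F}
    (ha : a.IsHomogeneous j) (k : ℕ) (q : MvPolynomial (Fin n) F) :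
    MvPolynomial.homogeneousComponent (k + j) (q * a) =
      MvPolynomial.homogeneousComponent k q * a := by
  classical
  conv_lhs => rw [← MvPolynomial.sum_homogeneousComponent q, Finset.sum_mul, map_sum]
  have h1 : ∀ i ∈ Finset.range (q.totalDegree + 1),
      MvPolynomial.homogeneousComponent (k + j) (MvPolynomial.homogeneousComponent i q * a) =
        if k = i then MvPolynomial.homogeneousComponent k q * a else 0 := by
    intro i _
    have h2 : (MvPolynomial.homogeneousComponent i q * a) ∈
        MvPolynomial.homogeneousSubmodule (Fin n) F (i + j) :=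
      (MvPolynomial.homogeneousComponent_isHomogeneous i q).mul ha
    rw [MvPolynomial.homogeneousComponent_of_mem h2]
    by_cases hik : k = i
    · subst hik; simp
    · rw [if_neg (by omega), if_neg hik]
  rw [Finset.sum_congr rfl h1, Finset.sum_ite_eq]
  split_ifs with h3
  · rfl
  · rw [Finset.mem_range, not_lt] at h3
    rw [MvPolynomial.homogeneousComponent_eq_zero _ _ (by omega), zero_mul]

/-- the part of degree `j` of `A ⊗ L` -/
noncomputable def homogPart (F : Type u) [Field F] (L : Type v) [AddCommGroup L] [Module F L]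
    (n j : ℕ) : Submodule F (MvPolynomial (Fin n) F ⊗[F] L) :=
  Submodule.span F {m | ∃ a : MvPolynomial (Fin n) F, ∃ y : L, a.IsHomogeneous j ∧ m = a ⊗ₜ[F] y}

/-- the component of degree `d` -/
noncomputable def homogC (F : Type u) [Field F] (L : Type v) [AddCommGroup L] [Module F L]
    (n d : ℕ) : MvPolynomial (Fin n) F ⊗[F] L →ₗ[F] MvPolynomial (Fin n) F ⊗[F] L :=
  (MvPolynomial.homogeneousComponent d).rTensor L

theorem homogC_smul {F : Type u} [Field F] {L : Type v} [AddCommGroup L] [Module F L] {n j : ℕ}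
    (k : ℕ) (q : MvPolynomial (Fin n) F) {z : MvPolynomial (Fin n) F ⊗[F] L}
    (hz : z ∈ homogPart F L n j) :
    homogC F L n (k + j) (q • z) = MvPolynomial.homogeneousComponent k q • z := by
  unfold homogPart at hz
  induction hz using Submodule.span_induction with
  | mem m hm =>
    obtain ⟨a, y, ha, rfl⟩ := hm
    rw [TensorProduct.smul_tmul', TensorProduct.smul_tmul', homogC, LinearMap.rTensor_tmul,
      smul_eq_mul, smul_eq_mul, homog_comp_mul ha]
  | zero => simp
  | add u v _ _ hu hv => rw [smul_add, map_add, hu, hv, smul_add]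
  | smul c u _ hu =>
    rw [smul_comm q c u, map_smul, hu, smul_comm c]

theorem homogPart_ad {F : Type u} [Field F] {L : Type v} [LieRing L] [LieAlgebra F L] {n : ℕ}
    (x : Fin n → L) {j : ℕ} {z : MvPolynomial (Fin n) F ⊗[F] L} (hz : z ∈ homogPart F L n j) :
    (LieAlgebra.ad (MvPolynomial (Fin n) F) (MvPolynomial (Fin n) F ⊗[F] L) (gen x)) z ∈
      homogPart F L n (j + 1) := by
  rw [LieAlgebra.ad_apply]
  unfold homogPart at hz
  induction hz using Submodule.span_induction with
  | mem m hm =>
    obtain ⟨a, y, ha, rfl⟩ := hm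
    unfold gen
    rw [sum_lie]
    refine Submodule.sum_mem _ fun i _ => Submodule.subset_span ?_
    refine ⟨MvPolynomial.X i * a, ⁅x i, y⁆, ?_, ?_⟩
    · rw [add_comm]
      exact (MvPolynomial.isHomogeneous_X F i).mul ha
    · exact LieAlgebra.ExtendScalars.bracket_tmul _ _ _ _ _ _ _ _
  | zero => rw [lie_zero]; exact Submodule.zero_mem _
  | add u v _ _ hu hv => rw [lie_add]; exact Submodule.add_mem _ hu hv
  | smul c u _ hu =>
    have h1 := (LieAlgebra.ad (MvPolynomial (Fin n) F) (MvPolynomial (Fin n) F ⊗[F] L)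
      (gen x)).map_smul_of_tower c u
    rw [LieAlgebra.ad_apply, LieAlgebra.ad_apply] at h1
    rw [h1]; exact Submodule.smul_mem _ _ hu

theorem homogPart_pow {F : Type u} [Field F] {L : Type v} [LieRing L] [LieAlgebra F L] {n : ℕ}
    (x : Fin n → L) (y : L) (j : ℕ) :
    ((LieAlgebra.ad (MvPolynomial (Fin n) F) (MvPolynomial (Fin n) F ⊗[F] L) (gen x)) ^ j)
      ((1 : MvPolynomial (Fin n) F) ⊗ₜ[F] y) ∈ homogPart F L n j := by
  induction j with
  | zero =>
    rw [pow_zero]
    exact Submodule.subset_span ⟨1, y, MvPolynomial.isHomogeneous_one _ _, rfl⟩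
  | succ j ih =>
    rw [pow_succ', Module.End.mul_apply]
    exact homogPart_ad x ih

theorem homog {F : Type u} [Field F] {L : Type v} [LieRing L] [LieAlgebra F L] {n : ℕ}
    (x : Fin n → L) (e : ℕ) (q : Fin e → MvPolynomial (Fin n) F)
    (hq : (LieAlgebra.ad (MvPolynomial (Fin n) F) (MvPolynomial (Fin n) F ⊗[F] L) (gen x)) ^ e +
      ∑ j : Fin e, q j • (LieAlgebra.ad (MvPolynomial (Fin n) F)
        (MvPolynomial (Fin n) F ⊗[F] L) (gen x)) ^ (j : ℕ) = 0) :
    ∃ c : Fin e → MvPolynomial (Fin n) F, (∀ j, (c j).IsHomogeneous (e - j)) ∧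
      (LieAlgebra.ad (MvPolynomial (Fin n) F) (MvPolynomial (Fin n) F ⊗[F] L) (gen x)) ^ e +
      ∑ j : Fin e, c j • (LieAlgebra.ad (MvPolynomial (Fin n) F)
        (MvPolynomial (Fin n) F ⊗[F] L) (gen x)) ^ (j : ℕ) = 0 := by
  refine ⟨fun j => MvPolynomial.homogeneousComponent (e - j) (q j),
    fun j => MvPolynomial.homogeneousComponent_isHomogeneous _ _, ?_⟩
  set D := LieAlgebra.ad (MvPolynomial (Fin n) F) (MvPolynomial (Fin n) F ⊗[F] L) (gen x) with hD
  have key : ∀ y : L, (D ^ e + ∑ j : Fin e,
      MvPolynomial.homogeneousComponent (e - j) (q j) • D ^ (j : ℕ))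
        ((1 : MvPolynomial (Fin n) F) ⊗ₜ[F] y) = 0 := by
    intro y
    have h1 := congrArg (fun f => homogC F L n e (f ((1 : MvPolynomial (Fin n) F) ⊗ₜ[F] y))) hq
    simp only [LinearMap.add_apply, LinearMap.sum_apply, LinearMap.smul_apply, map_add, map_sum,
      LinearMap.zero_apply, map_zero] at h1
    have h2 : homogC F L n e ((D ^ e) ((1 : MvPolynomial (Fin n) F) ⊗ₜ[F] y)) =
        (D ^ e) ((1 : MvPolynomial (Fin n) F) ⊗ₜ[F] y) := by
      have h3 := homogC_smul 0 (1 : MvPolynomial (Fin n) F) (homogPart_pow x y e)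
      rw [zero_add, one_smul, MvPolynomial.homogeneousComponent_zero, MvPolynomial.coeff_zero_one,
        map_one, one_smul] at h3
      exact h3
    have h4 : ∀ j : Fin e, homogC F L n e (q j • (D ^ (j : ℕ))
        ((1 : MvPolynomial (Fin n) F) ⊗ₜ[F] y)) =
        MvPolynomial.homogeneousComponent (e - j) (q j) • (D ^ (j : ℕ))
          ((1 : MvPolynomial (Fin n) F) ⊗ₜ[F] y) := by
      intro j
      have h3 := homogC_smul (e - j) (q j) (homogPart_pow x y j)
      rw [Nat.sub_add_cancel j.2.le] at h3
      exact h3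
    rw [h2, Finset.sum_congr rfl fun j _ => h4 j] at h1
    simpa only [LinearMap.add_apply, LinearMap.sum_apply, LinearMap.smul_apply] using h1
  refine LinearMap.ext fun z => ?_
  induction z using TensorProduct.induction_on with
  | zero => simp
  | tmul a y =>
    have h5 : a ⊗ₜ[F] y = a • ((1 : MvPolynomial (Fin n) F) ⊗ₜ[F] y) := by
      rw [TensorProduct.smul_tmul', smul_eq_mul, mul_one]
    rw [h5, map_smul, key, smul_zero, LinearMap.zero_apply]
  | add u v hu hv => rw [map_add, hu, hv, map_add]

end PerE
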