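import Pool.Agent.Lib.PerE.Defs

set_option autoImplicit false

/-!
# Kernels do not grow under generization

`indep_of_det`: if `∑ i, c i • w i = 0` then `M.mulVec c = 0`, `M a i = coord A (l a) (w i)`, so `c = 0`
(`Matrix.eq_zero_of_mulVec_eq_zero`).

`lemK`: there is a finite dimensional `L1 ≤ L` with all `w i` in the range of `baseChange A L1.subtype`
(`TensorProduct.exists_finite_submodule_...`, or induction on the tensors). `s = finrank (D0 L1) ≥ finrank L1 - r`
(rank-nullity for `D0` restricted to `L1`, its kernel embeds in `ker D0`). Choose `e : Fin s → L` in `L1` with `D0 (e b)`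
linearly independent and functionals `l a` on `L` with `l a (D0 (e b)) = δ a b`. The determinant of
`coord A (l a) (D (1 ⊗ e b))` is mapped to `1` by `ε` (as `ε (coord A l z) = l (red ε z)`), so it is not zero, and the
`D (1 ⊗ e b)` are independent over `A`. So the `w i` and the `1 ⊗ e b` together are independent over `A` (apply `D`), and
they are in the image of `A ⊗ L1`, which is a free module of rank `finrank L1` (and the map `A ⊗ L1 → A ⊗ L` is injective,
lift the family to `A ⊗ L1`). So `k + s ≤ finrank L1 ≤ s + r`.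
-/

namespace PerE

open Module
open scoped TensorProduct

universe u v w

variable {F : Type u} [Field F] {L : Type v} [AddCommGroup L] [Module F L]
  {A : Type w} [CommRing A] [Algebra F A]

theorem coord_red (ε : A →ₐ[F] F) (l : L →ₗ[F] F) (z : A ⊗[F] L) :
    ε (coord A l z) = l (red ε z) := by
  induction z using TensorProduct.induction_on with
  | zero => simp
  | tmul a x => simp [mul_comm]
  | add y z hy hz => simp [hy, hz]

theorem indep_of_det [IsDomain A] {k : ℕ} (w : Fin k → A ⊗[F] L) (l : Fin k → (L →ₗ[F] F))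
    (h : (Matrix.of fun a i : Fin k => coord A (l a) (w i)).det ≠ 0) : LinearIndependent A w := by
  rw [Fintype.linearIndependent_iff]
  intro c hc
  have h0 : (Matrix.of fun a i : Fin k => coord A (l a) (w i)).mulVec c = 0 := by
    funext a
    have := congrArg (coord A (l a)) hc
    rw [map_sum, map_zero] at this
    simp only [Matrix.mulVec, dotProduct, Matrix.of_apply, Pi.zero_apply]
    rw [← this]
    refine Finset.sum_congr rfl fun i _ => ?_
    rw [map_smul, smul_eq_mul, mul_comm]
  have := Matrix.eq_zero_of_mulVec_eq_zero h h0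
  intro i
  rw [this]
  rfl

/-- every tensor is an `A`-combination of `1 ⊗ t`, `t` in a finite set -/
theorem exists_fin (z : A ⊗[F] L) :
    ∃ T : Finset L, z ∈ Submodule.span A ((fun x : L => (1 : A) ⊗ₜ[F] x) '' (T : Set L)) := by
  classical
  induction z using TensorProduct.induction_on with
  | zero => exact ⟨∅, Submodule.zero_mem _⟩
  | tmul a x =>
    refine ⟨{x}, ?_⟩
    have : a ⊗ₜ[F] x = a • ((1 : A) ⊗ₜ[F] x) := by
      rw [TensorProduct.smul_tmul', smul_eq_mul, mul_one]
    rw [this]
    exact Submodule.smul_mem _ _ (Submodule.subset_span ⟨x, by simp, rfl⟩)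
  | add y z hy hz =>
    obtain ⟨T1, h1⟩ := hy
    obtain ⟨T2, h2⟩ := hz
    refine ⟨T1 ∪ T2, Submodule.add_mem _ ?_ ?_⟩
    · exact Submodule.span_mono (Set.image_mono (by simp)) h1
    · exact Submodule.span_mono (Set.image_mono (by simp)) h2

theorem lemK [IsDomain A] (ε : A →ₐ[F] F) (D : A ⊗[F] L →ₗ[A] A ⊗[F] L) (D0 : L →ₗ[F] L)
    (hD : ∀ x : L, red ε (D (1 ⊗ₜ[F] x)) = D0 x) (r : ℕ)
    [FiniteDimensional F (LinearMap.ker D0)] (hr : finrank F (LinearMap.ker D0) ≤ r)
    {k : ℕ} (w : Fin k → A ⊗[F] L) (hw : ∀ i, D (w i) = 0) (hi : LinearIndependent A w) :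
    k ≤ r := by
  classical
  choose T hT using fun i => exists_fin (w i)
  set U : Finset L := Finset.univ.biUnion T with hU
  set L1 : Submodule F L := Submodule.span F (U : Set L) with hL1
  have : FiniteDimensional F L1 := FiniteDimensional.span_finset F U
  set m := finrank F L1 with hm
  let f := finBasis F L1
  -- the images of L1
  have h1 : ∀ x ∈ L1, (1 : A) ⊗ₜ[F] x ∈
      Submodule.span A (Set.range fun j : Fin m => (1 : A) ⊗ₜ[F] ((f j : L1) : L)) := by
    intro x hx
    have hx2 := f.sum_repr ⟨x, hx⟩
    have hx3 := congrArg (fun y : L1 => (y : L)) hx2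
    simp only [Submodule.coe_sum, Submodule.coe_smul] at hx3
    rw [← hx3, TensorProduct.tmul_sum]
    refine Submodule.sum_mem _ fun j _ => ?_
    have : (1 : A) ⊗ₜ[F] (f.repr ⟨x, hx⟩ j • ((f j : L1) : L)) =
        (algebraMap F A (f.repr ⟨x, hx⟩ j)) • ((1 : A) ⊗ₜ[F] ((f j : L1) : L)) := by
      rw [TensorProduct.tmul_smul, algebraMap_smul]
    rw [this]
    exact Submodule.smul_mem _ _ (Submodule.subset_span ⟨j, rfl⟩)
  have h2 : ∀ i, w i ∈
      Submodule.span A (Set.range fun j : Fin m => (1 : A) ⊗ₜ[F] ((f j : L1) : L)) := by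
    intro i
    have : Submodule.span A ((fun x : L => (1 : A) ⊗ₜ[F] x) '' (T i : Set L)) ≤
        Submodule.span A (Set.range fun j : Fin m => (1 : A) ⊗ₜ[F] ((f j : L1) : L)) := by
      rw [Submodule.span_le]
      rintro _ ⟨x, hx, rfl⟩
      refine h1 x (Submodule.subset_span ?_)
      rw [hU]
      simp only [Finset.coe_biUnion, Set.mem_iUnion]
      exact ⟨i, by simp, hx⟩
    exact this (hT i)
  -- the rank of D0 on L1
  set E : L1 →ₗ[F] L := D0.domRestrict L1 with hE
  have hrk : finrank F (LinearMap.range E) + finrank F (LinearMap.ker E) = m :=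
    LinearMap.finrank_range_add_finrank_ker E
  have hker : finrank F (LinearMap.ker E) ≤ r := by
    refine le_trans ?_ hr
    let ι : LinearMap.ker E →ₗ[F] LinearMap.ker D0 :=
      LinearMap.codRestrict _ (L1.subtype ∘ₗ (LinearMap.ker E).subtype) (fun x => by
        have := x.2
        rw [LinearMap.mem_ker] at this ⊢
        exact this)
    refine LinearMap.finrank_le_finrank_of_injective (f := ι) ?_
    intro x y hxy
    have := congrArg (fun z : LinearMap.ker D0 => (z : L)) hxy
    exact Subtype.ext (Subtype.ext this)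
  set s := finrank F (LinearMap.range E) with hs
  let β := finBasis F (LinearMap.range E)
  have hβ : ∀ b : Fin s, ∃ x : L1, E x = (β b : L) := fun b => (β b).2
  choose e he using hβ
  have hl : ∀ a : Fin s, ∃ l : L →ₗ[F] F, l ∘ₗ (LinearMap.range E).subtype = β.coord a :=
    fun a => LinearMap.exists_extend (β.coord a)
  choose l hl using hl
  have hle : ∀ a b : Fin s, l a (D0 (e b)) = if a = b then 1 else 0 := by
    intro a b
    have h3 : D0 (e b : L) = (β b : L) := he b
    have h4 := LinearMap.congr_fun (hl a) (β b)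
    rw [h3]
    change l a (β b : L) = β.coord a (β b) at h4
    rw [h4, Basis.coord_apply, Basis.repr_self, Finsupp.single_apply]
    simp only [eq_comm]
  have hdet : (Matrix.of fun a b : Fin s =>
      coord A (l a) (D ((1 : A) ⊗ₜ[F] (e b : L)))).det ≠ 0 := by
    intro h0
    have h5 := congrArg ε h0
    rw [map_zero] at h5
    have h6 : ε ((Matrix.of fun a b : Fin s =>
        coord A (l a) (D ((1 : A) ⊗ₜ[F] (e b : L)))).det) = (1 : Matrix (Fin s) (Fin s) F).det := by
      rw [AlgHom.map_det]
      congr 1
      ext a b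
      simp only [AlgHom.mapMatrix_apply, Matrix.map_apply, Matrix.of_apply]
      rw [coord_red, hD, hle, Matrix.one_apply]
    rw [h6, Matrix.det_one] at h5
    exact one_ne_zero h5
  have hind : LinearIndependent A fun b : Fin s => D ((1 : A) ⊗ₜ[F] (e b : L)) :=
    indep_of_det _ l hdet
  -- the joint family
  have hjoint : LinearIndependent A
      (Sum.elim w fun b : Fin s => (1 : A) ⊗ₜ[F] ((e b : L1) : L)) := by
    rw [Fintype.linearIndependent_iff]
    intro g hg
    rw [Fintype.sum_sum_type] at hg
    simp only [Sum.elim_inl, Sum.elim_inr] at hg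
    have h7 := congrArg D hg
    rw [map_add, map_sum, map_sum, map_zero] at h7
    have h8 : ∑ i, D (g (Sum.inl i) • w i) = 0 := by
      refine Finset.sum_eq_zero fun i _ => ?_
      rw [map_smul, hw i, smul_zero]
    rw [h8, zero_add] at h7
    simp only [map_smul] at h7
    have h9 : ∀ b, g (Sum.inr b) = 0 :=
      (Fintype.linearIndependent_iff.mp hind) (fun b => g (Sum.inr b)) h7
    have h10 : ∑ i, g (Sum.inl i) • w i = 0 := by
      have : ∑ b : Fin s, g (Sum.inr b) • ((1 : A) ⊗ₜ[F] ((e b : L1) : L)) = 0 :=
        Finset.sum_eq_zero fun b _ => by rw [h9 b, zero_smul]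
      rw [this, add_zero] at hg
      exact hg
    have h11 : ∀ i, g (Sum.inl i) = 0 :=
      (Fintype.linearIndependent_iff.mp hi) (fun i => g (Sum.inl i)) h10
    rintro (i | b)
    · exact h11 i
    · exact h9 b
  have hcard : Fintype.card (Fin k ⊕ Fin s) ≤ m := by
    have hle2 := linearIndependent_le_span' _ hjoint
      (Set.range fun j : Fin m => (1 : A) ⊗ₜ[F] ((f j : L1) : L)) (by
        rintro _ ⟨(i | b), rfl⟩
        · exact h2 i
        · exact h1 _ (e b).2)
    have h12 : Fintype.card (Set.range fun j : Fin m => (1 : A) ⊗ₜ[F] ((f j : L1) : L)) ≤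
        Fintype.card (Fin m) := Fintype.card_range_le _
    rw [Cardinal.mk_fintype] at hle2
    have h13 : Fintype.card (Fin k ⊕ Fin s) ≤
        Fintype.card (Set.range fun j : Fin m => (1 : A) ⊗ₜ[F] ((f j : L1) : L)) := by
      exact_mod_cast hle2
    rw [Fintype.card_fin] at h12
    exact h13.trans h12
  rw [Fintype.card_sum, Fintype.card_fin, Fintype.card_fin] at hcard
  omega

end PerE
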