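import Pool.Agent.Lib.PerE.Defs

set_option autoImplicit false

/-!
# `p`-th powers after base change (Jacobson's formula)

`jac`: `B` an algebra over a field `F` of characteristic `p`, `S` an additive subgroup of `B` closed under commutators,
`X Y ∈ S`. Then `(X + Y) ^ p - X ^ p - Y ^ p ∈ S`. Proof: in `Polynomial B` (`B` non commutative, `T` central) let
`Z = T * C X + C Y` and `Z ^ p = ∑ i, T ^ i * C (s i)`, `s 0 = Y ^ p`, `s p = X ^ p`. The derivative of `Z ^ p` is
`∑ j < p, Z ^ j * C X * Z ^ (p - 1 - j) = (ad Z) ^ (p - 1) (C X)` (in characteristic `p`: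
`(l - r) ^ (p - 1) = ∑ j, l ^ j * r ^ (p - 1 - j)` for commuting `l`, `r` (left and right multiplication),
as `choose (p - 1) j = (-1) ^ j` in `F`), whose coefficients are in `S`
(coefficients of `(ad Z) ^ n (C X)` are in `S` by induction on `n`). So `i • s i ∈ S` for `0 < i < p`, and `i` is
invertible modulo `p` and `p • S = 0`, so `s i ∈ S`. Evaluate at `T = 1`.
(Any other proof is fine, for example: `f = (X + Y) ^ p` expanded in words, polynomials in two variables over `F` of
degree `< p` in each variable, which vanish on `F_p ^ 2`.)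

`bc_pow`: `TensorProduct.induction_on y`: zero; for `a ⊗ x`: `ad (a ⊗ x) = a • baseChange (ad x)`, and
`(ad (a ⊗ x)) ^ p = a ^ p • baseChange ((ad x) ^ p) = ad (a ^ p ⊗ y)`; for a sum: `jac` with `B = End_A (A ⊗ L)`
and `S` = range of `ad`.
-/

namespace PerE

open Module Polynomial
open scoped TensorProduct

universe u v w

namespace Pow

theorem choose_sub_one {p : ℕ} [hp : Fact p.Prime] {R : Type v} [Ring R] (h0 : (p : R) = 0) :
    ∀ m : ℕ, m + 1 ≤ p → (((p - 1).choose m : ℕ) : R) = (-1) ^ m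
  | 0, _ => by simp
  | (m + 1), hm => by
    have ih := choose_sub_one (p := p) h0 m (by omega)
    have h1 : p.choose (m + 1) = (p - 1).choose m + (p - 1).choose (m + 1) := by
      obtain ⟨q, rfl⟩ : ∃ q, p = q + 1 := ⟨p - 1, by omega⟩
      simp [Nat.choose_succ_succ]
    have h2 : p ∣ p.choose (m + 1) := hp.out.dvd_choose_self (by omega) (by omega)
    have h3 : ((p.choose (m + 1) : ℕ) : R) = 0 := by
      obtain ⟨c, hc⟩ := h2
      rw [hc, Nat.cast_mul, h0, zero_mul]
    rw [h1, Nat.cast_add, ih] at h3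
    rw [pow_succ, mul_neg, mul_one]
    exact (neg_eq_of_add_eq_zero_right h3).symm

theorem neg_one_pow_sub_one {p : ℕ} [hp : Fact p.Prime] {R : Type v} [Ring R] (h0 : (p : R) = 0) :
    (-1 : R) ^ (p - 1) = 1 := by
  have := choose_sub_one (p := p) h0 (p - 1) (by have := hp.out.pos; omega)
  rw [← this]; simp

theorem sub_pow_pred {p : ℕ} [hp : Fact p.Prime] {R : Type v} [Ring R] (h0 : (p : R) = 0)
    {l r : R} (hlr : Commute l r) :
    (l - r) ^ (p - 1) = ∑ j ∈ Finset.range p, l ^ j * r ^ (p - 1 - j) := by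
  have hp1 : p - 1 + 1 = p := Nat.sub_add_cancel hp.out.pos
  rw [sub_eq_add_neg, (hlr.neg_right).add_pow, hp1]
  refine Finset.sum_congr rfl fun j hj => ?_
  have hj' : j < p := Finset.mem_range.1 hj
  rw [choose_sub_one (p := p) h0 j (by omega), neg_pow r, mul_assoc, mul_assoc]
  have h1 : r ^ (p - 1 - j) * (-1 : R) ^ j = (-1 : R) ^ j * r ^ (p - 1 - j) :=
    ((Commute.neg_one_left _).pow_left _).eq.symm
  rw [h1, ← mul_assoc ((-1 : R) ^ (p - 1 - j)), ← pow_add, Nat.sub_add_cancel (by omega),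
    neg_one_pow_sub_one (p := p) h0, one_mul]

theorem deriv_pow {B : Type v} [Ring B] (Z : B[X]) :
    ∀ n : ℕ, derivative (Z ^ n) = ∑ j ∈ Finset.range n, Z ^ j * derivative Z * Z ^ (n - 1 - j)
  | 0 => by simp
  | (n + 1) => by
    rw [pow_succ, derivative_mul, deriv_pow Z n, Finset.sum_range_succ, Finset.sum_mul]
    congr 1
    · refine Finset.sum_congr rfl fun j hj => ?_
      have hj' : j < n := Finset.mem_range.1 hj
      rw [mul_assoc _ (Z ^ (n - 1 - j)) Z, ← pow_succ]
      congr 2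
      omega
    · simp

/-- coefficients in `S` -/
theorem coeff_comm_mem {B : Type v} [Ring B] (S : AddSubgroup B)
    (hS : ∀ x ∈ S, ∀ y ∈ S, x * y - y * x ∈ S) (x y : B) (hx : x ∈ S) (hy : y ∈ S)
    (f : B[X]) (hf : ∀ i, f.coeff i ∈ S) (i : ℕ) :
    ((X * C x + C y) * f - f * (X * C x + C y)).coeff i ∈ S := by
  have h1 : (X * C x + C y) * f - f * (X * C x + C y)
      = X * (C x * f - f * C x) + (C y * f - f * C y) := by
    have hc : f * (X * C x) = X * (f * C x) := by
      rw [← mul_assoc, ← mul_assoc, (commute_X f).eq]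
    rw [add_mul, mul_add, hc, mul_sub, mul_assoc X (C x) f]
    abel
  rw [h1, coeff_add]
  refine S.add_mem ?_ ?_
  · cases i with
    | zero => simp
    | succ i =>
      rw [coeff_X_mul, coeff_sub, coeff_C_mul, coeff_mul_C]
      exact hS x hx _ (hf i)
  · rw [coeff_sub, coeff_C_mul, coeff_mul_C]
    exact hS y hy _ (hf i)

theorem jac0 {p : ℕ} [hp : Fact p.Prime] {B : Type v} [Ring B] (h0 : (p : B) = 0) (S : AddSubgroup B)
    (hS : ∀ x ∈ S, ∀ y ∈ S, x * y - y * x ∈ S) (x y : B) (hX : x ∈ S) (hY : y ∈ S) :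
    (x + y) ^ p - x ^ p - y ^ p ∈ S := by
  classical
  set Z : B[X] := X * C x + C y with hZ
  have hdZ : derivative Z = C x := by
    rw [hZ, derivative_add, derivative_mul, derivative_X, derivative_C, derivative_C]
    simp
  have hp1 : 1 ≤ p := hp.out.pos
  -- the derivative is an iterated commutator
  have h0' : ((p : ℕ) : Module.End ℤ B[X]) = 0 := by
    ext f i
    have : ((p : ℕ) : Module.End ℤ B[X]) f = p • f := by
      simp
    rw [this]
    simp [h0, nsmul_eq_mul]
  have hder : derivative (Z ^ p)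
      = ((LinearMap.mulLeft ℤ Z - LinearMap.mulRight ℤ Z) ^ (p - 1)) (C x) := by
    rw [deriv_pow, hdZ, sub_pow_pred (p := p) h0' (LinearMap.commute_mulLeft_right (R := ℤ) Z Z)]
    rw [LinearMap.sum_apply]
    refine Finset.sum_congr rfl fun j hj => ?_
    rw [Module.End.mul_apply, LinearMap.pow_mulLeft, LinearMap.pow_mulRight,
      LinearMap.mulLeft_apply, LinearMap.mulRight_apply, mul_assoc]
  have hmem : ∀ n i, (((LinearMap.mulLeft ℤ Z - LinearMap.mulRight ℤ Z) ^ n) (C x)).coeff i ∈ S := by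
    intro n
    induction n with
    | zero =>
      intro i
      rw [pow_zero, Module.End.one_apply, coeff_C]
      split_ifs
      · exact hX
      · exact S.zero_mem
    | succ n ih =>
      intro i
      rw [pow_succ', Module.End.mul_apply]
      rw [LinearMap.sub_apply, LinearMap.mulLeft_apply, LinearMap.mulRight_apply]
      exact coeff_comm_mem S hS x y hX hY _ ih i
  have hcoef : ∀ i, 0 < i → i < p → (Z ^ p).coeff i ∈ S := by
    intro i hi hip
    obtain ⟨n, rfl⟩ : ∃ n, i = n + 1 := ⟨i - 1, by omega⟩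
    have h1 : (derivative (Z ^ p)).coeff n ∈ S := by rw [hder]; exact hmem _ _
    rw [coeff_derivative] at h1
    have hcop : IsCoprime ((n + 1 : ℕ) : ℤ) (p : ℤ) :=
      Nat.isCoprime_iff_coprime.2 (Nat.coprime_of_lt_prime (by omega) hip hp.out).symm
    obtain ⟨u, v, huv⟩ := hcop
    have h2 : (Z ^ p).coeff (n + 1) = u • ((Z ^ p).coeff (n + 1) * ((n : B) + 1)) := by
      have h3 : ((u * ((n + 1 : ℕ) : ℤ) + v * (p : ℤ) : ℤ) : B) = 1 := by rw [huv]; simp
      have h4 : (u : B) * ((n : B) + 1) = 1 := by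
        push_cast at h3
        rw [h0, mul_zero, add_zero] at h3
        exact h3
      rw [zsmul_eq_mul, ← mul_assoc, (Int.cast_commute u _).eq, mul_assoc, h4, mul_one]
    rw [h2]
    exact S.zsmul_mem h1 u
  have hdeg : Z.natDegree ≤ 1 := by
    rw [hZ]
    refine (natDegree_add_le _ _).trans (max_le ?_ ?_)
    · refine natDegree_mul_le.trans ?_
      rw [natDegree_C, add_zero]
      exact natDegree_X_le
    · rw [natDegree_C]; exact Nat.zero_le _
  have hdegp : (Z ^ p).natDegree < p + 1 := by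
    have := natDegree_pow_le_of_le p hdeg
    omega
  have hc0 : (Z ^ p).coeff 0 = y ^ p := by
    have h1 : constantCoeff (Z ^ p) = (constantCoeff Z) ^ p := map_pow _ _ _
    rw [constantCoeff_apply, constantCoeff_apply] at h1
    rw [h1, hZ]
    congr 1
    rw [coeff_add, mul_coeff_zero, coeff_X_zero, zero_mul, zero_add, coeff_C_zero]
  have hcp : (Z ^ p).coeff p = x ^ p := by
    have h1 := coeff_pow_of_natDegree_le (m := p) hdeg
    rw [mul_one] at h1
    rw [h1, hZ]
    congr 1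
    rw [coeff_add, coeff_X_mul, coeff_C_zero, coeff_C_succ, add_zero]
  have hev : (x + y) ^ p = ∑ i ∈ Finset.range (p + 1), (Z ^ p).coeff i := by
    have h1 : eval₂RingHom' (RingHom.id B) 1 (fun a => Commute.one_right _) (Z ^ p)
        = (eval₂RingHom' (RingHom.id B) 1 (fun a => Commute.one_right _) Z) ^ p := map_pow _ _ _
    have h2 : eval₂RingHom' (RingHom.id B) 1 (fun a => Commute.one_right _) Z = x + y := by
      rw [hZ, map_add, map_mul]
      simp [eval₂RingHom']
    rw [h2] at h1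
    rw [← h1]
    have h3 := eval₂_eq_sum_range' (RingHom.id B) hdegp 1
    change eval₂ (RingHom.id B) 1 (Z ^ p) = _
    rw [h3]
    simp
  rw [Finset.sum_range_succ, hcp] at hev
  rw [hev, add_sub_cancel_right]
  obtain ⟨q, hq⟩ : ∃ q, p = q + 1 := ⟨p - 1, by omega⟩
  have h5 : ∑ i ∈ Finset.range p, (Z ^ p).coeff i
      = ∑ i ∈ Finset.range (p - 1), (Z ^ p).coeff (i + 1) + y ^ p := by
    have : Finset.range p = Finset.range (p - 1 + 1) := by rw [Nat.sub_add_cancel hp1]
    rw [this, Finset.sum_range_succ', hc0]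
  rw [h5, add_sub_cancel_right]
  refine S.sum_mem fun i hi => hcoef _ (by omega) ?_
  have := Finset.mem_range.1 hi
  omega

end Pow

variable {p : ℕ} [Fact p.Prime] {F : Type u} [Field F] [CharP F p]

theorem jac {B : Type v} [Ring B] [CharP B p] (S : AddSubgroup B)
    (hS : ∀ x ∈ S, ∀ y ∈ S, x * y - y * x ∈ S) (X Y : B) (hX : X ∈ S) (hY : Y ∈ S) :
    (X + Y) ^ p - X ^ p - Y ^ p ∈ S :=
  Pow.jac0 (CharP.cast_eq_zero B p) S hS X Y hX hY

theorem Pow.ad_tmul {L : Type v} [LieRing L] [LieAlgebra F L] (A : Type w) [CommRing A] [Algebra F A]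
    (a : A) (x : L) :
    LieAlgebra.ad A (A ⊗[F] L) (a ⊗ₜ[F] x) = a • LinearMap.baseChange A (LieAlgebra.ad F L x) := by
  refine TensorProduct.AlgebraTensorModule.ext fun b m => ?_
  rw [LieAlgebra.ad_apply, LieAlgebra.ExtendScalars.bracket_tmul, LinearMap.smul_apply,
    LinearMap.baseChange_tmul, TensorProduct.smul_tmul', smul_eq_mul, LieAlgebra.ad_apply]

theorem bc_pow {L : Type v} [LieRing L] [LieAlgebra F L]
    (h : ∀ x : L, ∃ y : L, (LieAlgebra.ad F L x) ^ p = LieAlgebra.ad F L y)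
    (A : Type w) [CommRing A] [Algebra F A] (y : A ⊗[F] L) :
    ∃ g : A ⊗[F] L, (LieAlgebra.ad A (A ⊗[F] L) y) ^ p = LieAlgebra.ad A (A ⊗[F] L) g := by
  have h0 : ((p : ℕ) : Module.End A (A ⊗[F] L)) = 0 := by
    have h1 : ((p : ℕ) : A) = 0 := by
      rw [← map_natCast (algebraMap F A) p, CharP.cast_eq_zero, map_zero]
    have h2 : ((p : ℕ) : Module.End A (A ⊗[F] L)) = algebraMap A (Module.End A (A ⊗[F] L)) (p : A) := by
      rw [map_natCast]
    rw [h2, h1, map_zero]
  induction y using TensorProduct.induction_on with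
  | zero =>
    refine ⟨0, ?_⟩
    rw [map_zero]
    exact zero_pow (Nat.Prime.ne_zero Fact.out)
  | tmul a x =>
    obtain ⟨z, hz⟩ := h x
    refine ⟨(a ^ p) ⊗ₜ[F] z, ?_⟩
    rw [Pow.ad_tmul, Pow.ad_tmul, _root_.smul_pow, ← LinearMap.baseChange_pow, hz]
  | add y z hy hz =>
    obtain ⟨gy, hy⟩ := hy
    obtain ⟨gz, hz⟩ := hz
    have key := Pow.jac0 (p := p) h0
      ((LieAlgebra.ad A (A ⊗[F] L) : (A ⊗[F] L) →ₗ[A] Module.End A (A ⊗[F] L)).toAddMonoidHom.range)
      (by
        rintro _ ⟨s, rfl⟩ _ ⟨t, rfl⟩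
        refine ⟨⁅s, t⁆, ?_⟩
        refine LinearMap.ext fun m => ?_
        exact lie_lie s t m)
      (LieAlgebra.ad A (A ⊗[F] L) y) (LieAlgebra.ad A (A ⊗[F] L) z) ⟨y, rfl⟩ ⟨z, rfl⟩
    obtain ⟨g, hg⟩ := key
    refine ⟨g + gy + gz, ?_⟩
    have hg' : LieAlgebra.ad A (A ⊗[F] L) g
        = (LieAlgebra.ad A (A ⊗[F] L) y + LieAlgebra.ad A (A ⊗[F] L) z) ^ p
          - (LieAlgebra.ad A (A ⊗[F] L) y) ^ p - (LieAlgebra.ad A (A ⊗[F] L) z) ^ p := hg
    rw [map_add, map_add, map_add, hg', hy, hz]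
    abel

end PerE
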