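import Pool.Agent.Lib.PerE.Base
import Pool.Agent.Lib.PerE.Pow
import Pool.Agent.Lib.PerE.LemK
import Pool.Agent.Lib.PerE.Bc
import Pool.Agent.Lib.PerE.DetCoeff

set_option autoImplicit false

/-!
# Commuting independent families are not larger than any centraliser

`powers`: by `bc_pow` there is `G : A ⊗ L → A ⊗ L` with `ad (G y) = (ad y) ^ p`; `g i = G^[i] x`; `⁅x, g i⁆ = -⁅g i, x⁆ = -(ad x) ^ (p ^ i) x = 0`
since `p ^ i = n + 1` and `⁅x, x⁆ = 0`.

`lemG`: let `s : L → L` with `ad (s y) = (ad y) ^ p` (from `h.cl`), so `ad (s^[i] y) = (ad y) ^ (p ^ i)`.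
`N ≥ k` a common period of the `b j` : `(ad (b j)) ^ (p ^ N) = ad (b j)` (take a product of the `m j` times `k`).
`z j = s^[N - j] (b j)`, so `ad (s^[j] (z j)) = (ad (b j)) ^ (p ^ N) = ad (b j)` and `s^[j] (z j) = b j` by `hZ`. The `z j` commute
(`ad (z j)` is a power of `ad (b j)`; `⁅z i, z j⁆ = 0` since `ad ⁅z i, z j⁆ = 0` is the commutator of powers of commuting maps, and `hZ`).
`A = MvPolynomial (Option (Fin k)) F`, `x = X none ⊗ x0 + ∑ j, X (some j) ⊗ z j`, `D = ad x`, `g i` from `powers`.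
`ε`: `X none ↦ 1`, `X (some j) ↦ 0`: `red ε (D (1 ⊗ y)) = ⁅x0, y⁆`. By `lemK` it is enough that `g 0, …, g (k - 1)` are independent
over `A`. `l a` functionals with `l a (b j) = δ a j` (`b` independent); `indep_of_det`. The map
`π : X none ↦ 0, X (some j) ↦ X j` to `A' = MvPolynomial (Fin k) F` sends the determinant to that of
`coord A' (l a) (bcMap π (g i))`, and `bcMap π (g i) = ∑ j, (X j) ^ (p ^ i) ⊗ s^[i] (z j)` because both have the same `ad`
(`ad_bcMap`, `ad_sum_pow`) and `A' ⊗ L` has centre zero (`ctr0_bc`). Now `det_coeff` with `c a i j = l a (s^[i] (z j))`.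
-/

namespace PerE

open Module
open scoped TensorProduct

universe u v w

variable {p : ℕ} [Fact p.Prime] {F : Type u} [Field F] [CharP F p] {L : Type v} [LieRing L]
  [LieAlgebra F L]

theorem powers (h : Per p F L) (A : Type w) [CommRing A] [Algebra F A] (x : A ⊗[F] L) :
    ∃ g : ℕ → A ⊗[F] L, g 0 = x ∧ (∀ i, LieAlgebra.ad A (A ⊗[F] L) (g i) =
      (LieAlgebra.ad A (A ⊗[F] L) x) ^ (p ^ i)) ∧ ∀ i, ⁅x, g i⁆ = 0 := by
  choose G hG using bc_pow h.cl A
  have h1 : ∀ i, LieAlgebra.ad A (A ⊗[F] L) (G^[i] x) =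
      (LieAlgebra.ad A (A ⊗[F] L) x) ^ (p ^ i) := by
    intro i
    induction i with
    | zero => simp
    | succ i ih =>
      rw [Function.iterate_succ_apply', ← hG, ih, ← pow_mul, ← pow_succ]
  refine ⟨fun i => G^[i] x, rfl, h1, fun i => ?_⟩
  have h2 : ⁅G^[i] x, x⁆ = 0 := by
    have h3 : ⁅G^[i] x, x⁆ = ((LieAlgebra.ad A (A ⊗[F] L) x) ^ (p ^ i)) x := by
      rw [← h1 i]
      rfl
    obtain ⟨n, hn⟩ : ∃ n, p ^ i = n + 1 :=
      ⟨p ^ i - 1, by have : 0 < p ^ i := Nat.pow_pos (Fact.out : p.Prime).pos; omega⟩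
    rw [h3, hn, pow_succ]
    simp
  rw [← lie_skew, h2, neg_zero]

lemma lemG_ad_inj (hZ : Ctr0 L) {y z : L} (h : LieAlgebra.ad F L y = LieAlgebra.ad F L z) : y = z := by
  have : y - z = 0 := hZ _ (fun t => by
    rw [sub_lie, sub_eq_zero]
    exact LinearMap.congr_fun h t)
  exact sub_eq_zero.1 this

lemma lemG_per_mul {x : L} {m : ℕ} (hm : (LieAlgebra.ad F L x) ^ (p ^ m) = LieAlgebra.ad F L x) (n : ℕ) :
    (LieAlgebra.ad F L x) ^ (p ^ (m * n)) = LieAlgebra.ad F L x := by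
  induction n with
  | zero => simp
  | succ n ih => rw [Nat.mul_succ, pow_add, pow_mul, ih, hm]

lemma lemG_coord_bcMap {V : Type v} [AddCommGroup V] [Module F V] {A : Type w} {B : Type w}
    [CommRing A] [Algebra F A] [CommRing B] [Algebra F B] (π : A →ₐ[F] B) (l : V →ₗ[F] F)
    (z : A ⊗[F] V) : π (coord A l z) = coord B l (bcMap π z) := by
  induction z using TensorProduct.induction_on with
  | zero => simp
  | tmul a x => simp
  | add y z hy hz => simp only [map_add, hy, hz]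

theorem lemG (h : Per p F L) (hZ : Ctr0 L) (x0 : L) (r : ℕ)
    [FiniteDimensional F (LinearMap.ker (LieAlgebra.ad F L x0))]
    (hr : finrank F (LinearMap.ker (LieAlgebra.ad F L x0)) ≤ r) {k : ℕ} (b : Fin k → L)
    (hb : ∀ i j, ⁅b i, b j⁆ = 0) (hi : LinearIndependent F b) : k ≤ r := by
  classical
  choose s hs using h.cl
  have hsi : ∀ i y, LieAlgebra.ad F L (s^[i] y) = (LieAlgebra.ad F L y) ^ (p ^ i) := by
    intro i
    induction i with
    | zero => intro y; simp
    | succ i ih =>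
      intro y
      rw [Function.iterate_succ_apply', ← hs, ih, ← pow_mul, ← pow_succ]
  -- a common period
  obtain ⟨N, hN1, hN2⟩ : ∃ N, k ≤ N ∧ ∀ j, (LieAlgebra.ad F L (b j)) ^ (p ^ N) =
      LieAlgebra.ad F L (b j) := by
    choose m hm0 hm using h.per
    refine ⟨(∏ j, m (b j)) * k, ?_, ?_⟩
    · exact Nat.le_mul_of_pos_left _ (Finset.prod_pos fun j _ => hm0 (b j))
    · intro j
      obtain ⟨n, hn⟩ := Finset.dvd_prod_of_mem (fun j => m (b j)) (Finset.mem_univ j)
      rw [hn, mul_assoc]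
      exact lemG_per_mul (hm (b j)) _
  set z : Fin k → L := fun j => s^[N - j] (b j) with hz
  have hzb : ∀ j : Fin k, s^[(j : ℕ)] (z j) = b j := by
    intro j
    have hj := j.2
    rw [hz]
    simp only
    rw [← Function.iterate_add_apply]
    refine lemG_ad_inj (F := F) hZ ?_
    rw [hsi, show (j : ℕ) + (N - j) = N by omega]
    exact hN2 j
  have hcom : ∀ i j, ⁅z i, z j⁆ = 0 := by
    intro i j
    have h1 : Commute (LieAlgebra.ad F L (b i)) (LieAlgebra.ad F L (b j)) := by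
      refine LinearMap.ext fun t => ?_
      show ⁅b i, ⁅b j, t⁆⁆ = ⁅b j, ⁅b i, t⁆⁆
      rw [leibniz_lie, hb, zero_lie, zero_add]
    have h2 := (h1.pow_pow (p ^ (N - (i : ℕ))) (p ^ (N - (j : ℕ)))).eq
    rw [← hsi, ← hsi] at h2
    refine hZ _ (fun t => ?_)
    have h3 : ⁅z i, ⁅z j, t⁆⁆ = ⁅z j, ⁅z i, t⁆⁆ := LinearMap.congr_fun h2 t
    rw [lie_lie, h3, sub_self]
  -- functionals dual to `b`
  obtain ⟨l, hl⟩ : ∃ l : Fin k → (L →ₗ[F] F), ∀ a j, l a (b j) = if a = j then 1 else 0 := by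
    obtain ⟨f, hf⟩ := LinearMap.exists_extend (p := Submodule.span F (Set.range b))
      (hi.repr : Submodule.span F (Set.range b) →ₗ[F] (Fin k →₀ F))
    refine ⟨fun a => (Finsupp.lapply a) ∘ₗ f, fun a j => ?_⟩
    have h1 : f (b j) = hi.repr ⟨b j, Submodule.subset_span ⟨j, rfl⟩⟩ :=
      LinearMap.congr_fun hf ⟨b j, Submodule.subset_span ⟨j, rfl⟩⟩
    have h2 := hi.repr_eq_single j ⟨b j, Submodule.subset_span ⟨j, rfl⟩⟩ rfl
    rw [LinearMap.comp_apply, h1, h2, Finsupp.lapply_apply, Finsupp.single_apply]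
    by_cases h3 : a = j
    · simp [h3]
    · simp [h3, Ne.symm h3]
  -- the generic element
  obtain ⟨x, hx⟩ : ∃ x : MvPolynomial (Option (Fin k)) F ⊗[F] L, x =
      (MvPolynomial.X none : MvPolynomial (Option (Fin k)) F) ⊗ₜ[F] x0 +
      ∑ j : Fin k, (MvPolynomial.X (some j) : MvPolynomial (Option (Fin k)) F) ⊗ₜ[F] z j :=
    ⟨_, rfl⟩
  obtain ⟨g, hg0, hg, hgx⟩ := powers h (MvPolynomial (Option (Fin k)) F) x
  obtain ⟨ε, hε⟩ : ∃ ε : MvPolynomial (Option (Fin k)) F →ₐ[F] F, ε =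
      MvPolynomial.aeval (fun o : Option (Fin k) => if o = none then (1 : F) else 0) := ⟨_, rfl⟩
  obtain ⟨π, hπ0⟩ : ∃ π : MvPolynomial (Option (Fin k)) F →ₐ[F] MvPolynomial (Fin k) F, π =
      MvPolynomial.aeval (fun o : Option (Fin k) =>
        (o.elim 0 MvPolynomial.X : MvPolynomial (Fin k) F)) := ⟨_, rfl⟩
  have hπ : Function.Surjective π := by
    intro q
    refine ⟨MvPolynomial.rename some q, ?_⟩
    rw [hπ0, MvPolynomial.aeval_rename]
    have : ((fun o : Option (Fin k) => (o.elim 0 MvPolynomial.X : MvPolynomial (Fin k) F)) ∘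
        some) = (MvPolynomial.X : Fin k → MvPolynomial (Fin k) F) := by
      funext j
      rfl
    rw [this, MvPolynomial.aeval_X_left_apply]
  have hD : ∀ y : L, red ε (LieAlgebra.ad (MvPolynomial (Option (Fin k)) F)
      (MvPolynomial (Option (Fin k)) F ⊗[F] L) x (1 ⊗ₜ[F] y)) = LieAlgebra.ad F L x0 y := by
    intro y
    have h1 : LieAlgebra.ad (MvPolynomial (Option (Fin k)) F)
        (MvPolynomial (Option (Fin k)) F ⊗[F] L) x (1 ⊗ₜ[F] y) =
        (MvPolynomial.X none : MvPolynomial (Option (Fin k)) F) ⊗ₜ[F] ⁅x0, y⁆ +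
          ∑ j : Fin k, (MvPolynomial.X (some j) : MvPolynomial (Option (Fin k)) F) ⊗ₜ[F]
            ⁅z j, y⁆ := by
      rw [LieAlgebra.ad_apply, hx, add_lie, sum_lie]
      simp only [LieAlgebra.ExtendScalars.bracket_tmul, mul_one]
    rw [h1, map_add, map_sum]
    simp only [red_tmul]
    have h2 : ε (MvPolynomial.X none) = 1 := by simp [hε]
    have h3 : ∀ j, ε (MvPolynomial.X (some j)) = 0 := by intro j; simp [hε]
    simp only [h2, h3, one_smul, zero_smul, Finset.sum_const_zero, add_zero]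
    rfl
  have hπx : bcMap π x = ∑ j : Fin k, (MvPolynomial.X j : MvPolynomial (Fin k) F) ⊗ₜ[F] z j := by
    simp only [hx, map_add, map_sum, bcMap_tmul]
    have h2 : π (MvPolynomial.X none) = 0 := by simp [hπ0]
    have h3 : ∀ j, π (MvPolynomial.X (some j)) = MvPolynomial.X j := by intro j; simp [hπ0]
    simp only [h2, h3, TensorProduct.zero_tmul, zero_add]
  have hπg : ∀ i : ℕ, bcMap π (g i) =
      ∑ j : Fin k, ((MvPolynomial.X j : MvPolynomial (Fin k) F) ^ (p ^ i)) ⊗ₜ[F] (s^[i] (z j)) := by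
    intro i
    have h1 := ad_bcMap π hπ (g i) x (p ^ i) (hg i)
    have h2 := ad_sum_pow (p := p) (fun j : Fin k => (MvPolynomial.X j : MvPolynomial (Fin k) F)) z
      (fun j => s^[i] (z j)) hcom i (fun j => hsi i (z j))
    rw [hπx, ← h2] at h1
    have hZ' := ctr0_bc (F := F) hZ (MvPolynomial (Fin k) F)
    have h3 : bcMap π (g i) - ∑ j : Fin k, ((MvPolynomial.X j : MvPolynomial (Fin k) F) ^ (p ^ i)) ⊗ₜ[F]
        (s^[i] (z j)) = 0 := hZ' _ (fun t => by
      rw [sub_lie, sub_eq_zero]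
      exact LinearMap.congr_fun h1 t)
    exact sub_eq_zero.1 h3
  -- the determinant
  have hdet : (Matrix.of fun a i : Fin k => coord (MvPolynomial (Option (Fin k)) F) (l a) (g i)).det ≠ 0 := by
    intro h0
    have h1 : π ((Matrix.of fun a i : Fin k => coord (MvPolynomial (Option (Fin k)) F) (l a) (g i)).det) = 0 := by
      rw [h0, map_zero]
    rw [AlgHom.map_det] at h1
    refine det_coeff p F k (fun a i j => l a (s^[(i : ℕ)] (z j))) ?_ ?_
    · intro a i
      rw [hzb, hl]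
    · rw [← h1]
      congr 1
      ext1 a i
      simp only [AlgHom.mapMatrix_apply, Matrix.map_apply, Matrix.of_apply]
      rw [lemG_coord_bcMap π (l a) (g i), hπg, map_sum]
      refine Finset.sum_congr rfl fun j _ => ?_
      rw [coord_tmul, MvPolynomial.smul_eq_C_mul, mul_comm]
  refine lemK ε (LieAlgebra.ad (MvPolynomial (Option (Fin k)) F)
    (MvPolynomial (Option (Fin k)) F ⊗[F] L) x) (LieAlgebra.ad F L x0) hD r hr
    (fun i : Fin k => g i) (fun i => hgx i) (indep_of_det _ l hdet)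

end PerE
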