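import Pool.Agent.Lib.PerE.Bd
import Pool.Agent.Lib.PerE.FinCase

set_option autoImplicit false

/-!
# The main theorem
-/

namespace PerE

open Module

universe u v

variable {p : ℕ} [Fact p.Prime] {F : Type u} [Field F] [CharP F p]

theorem mem_center_iff' {L : Type v} [LieRing L] [LieAlgebra F L] {z : L} :
    z ∈ LieAlgebra.center F L ↔ ∀ y : L, ⁅z, y⁆ = 0 := by
  rw [LieModule.mem_maxTrivSubmodule]
  constructor
  · intro h y
    rw [← lie_skew, h y, neg_zero]
  · intro h y
    rw [← lie_skew, h y, neg_zero]

/-- if the quotient by the centre is zero then the algebra is abelian -/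
theorem abelian_of_quot {L : Type v} [LieRing L] [LieAlgebra F L]
    (h : ∀ x : L ⧸ LieAlgebra.center F L, x = 0) (x y : L) : ⁅x, y⁆ = 0 := by
  have h1 := h (LieSubmodule.Quotient.mk x)
  have h2 : x ∈ LieAlgebra.center F L := (LieSubmodule.Quotient.mk_eq_zero').1 h1
  exact mem_center_iff'.1 h2 y

/-- finite dimensional, centre zero: the algebra is zero -/
theorem fin_zero (n : ℕ) : ∀ (L : Type v) [LieRing L] [LieAlgebra F L], Per p F L → Ctr0 L →
    FiniteDimensional F L → finrank F L ≤ n → ∀ x : L, x = 0 := by
  induction n with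
  | zero =>
    intro L _ _ h hZ hfd hn x
    have h0 : finrank F L = 0 := by omega
    have := finrank_zero_iff.1 h0
    exact Subsingleton.elim _ _
  | succ n ih =>
    intro L _ _ h hZ hfd hn
    by_contra hcon
    push Not at hcon
    obtain ⟨x0, hx0⟩ := hcon
    -- centralisers of nonzero elements are abelian
    have hab : ∀ v : L, v ≠ 0 → ∀ a b : L, ⁅v, a⁆ = 0 → ⁅v, b⁆ = 0 → ⁅a, b⁆ = 0 := by
      intro v hv a b ha hb
      have hvv : v ∈ centL F v := by
        rw [mem_centL, lie_self]
      have hQ := ih (centL F v ⧸ LieAlgebra.center F (centL F v)) (per_quot (per_cent h v))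
        (ctr0_quot (per_cent h v)) inferInstance (by
          have e1 := Submodule.finrank_quotient_add_finrank
            (LieAlgebra.center F (centL F v)).toSubmodule
          have e2 : finrank F (centL F v) ≤ finrank F L :=
            Submodule.finrank_le (centL F v).toSubmodule
          have hz : (⟨v, hvv⟩ : centL F v) ∈ LieAlgebra.center F (centL F v) := by
            rw [mem_center_iff']
            intro y
            apply Subtype.ext
            exact mem_centL.1 y.2
          have e3 : 0 < finrank F (LieAlgebra.center F (centL F v)).toSubmodule := by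
            rw [finrank_pos_iff_exists_ne_zero]
            refine ⟨⟨⟨v, hvv⟩, hz⟩, ?_⟩
            intro h0
            apply hv
            have := congrArg (fun t : (LieAlgebra.center F (centL F v)).toSubmodule =>
              ((t : centL F v) : L)) h0
            simpa using this
          change finrank F (centL F v ⧸ (LieAlgebra.center F (centL F v)).toSubmodule) ≤ n
          omega)
      have := abelian_of_quot hQ ⟨a, ha⟩ ⟨b, hb⟩
      have h3 := congrArg (Subtype.val) this
      simpa using h3
    -- all centralisers have the same dimension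
    have hle : ∀ v w : L, v ≠ 0 → finrank F (LinearMap.ker (LieAlgebra.ad F L v)) ≤
        finrank F (LinearMap.ker (LieAlgebra.ad F L w)) := by
      intro v w hv
      let b := finBasis F (LinearMap.ker (LieAlgebra.ad F L v))
      refine lemG h hZ w _ le_rfl (fun i => (b i : L)) ?_ ?_
      · intro i j
        apply hab v hv
        · exact LinearMap.mem_ker.1 (b i).2
        · exact LinearMap.mem_ker.1 (b j).2
      · exact b.linearIndependent.map' (Submodule.subtype _) (Submodule.ker_subtype _)
    have hadx0 : LieAlgebra.ad F L x0 ≠ 0 := by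
      intro h0
      apply hx0
      apply hZ
      intro y
      have := LinearMap.congr_fun h0 y
      simpa using this
    have hF : Alg p F := alg_of h x0 hadx0
    refine fin_case h hF (finrank F (LinearMap.ker (LieAlgebra.ad F L x0))) ?_ ?_ ?_
    · rw [finrank_pos_iff_exists_ne_zero]
      refine ⟨⟨x0, by simp⟩, ?_⟩
      intro h0
      exact hx0 (congrArg Subtype.val h0)
    · refine lt_of_le_of_ne (Submodule.finrank_le _) ?_
      intro he
      have htop : LinearMap.ker (LieAlgebra.ad F L x0) = ⊤ := Submodule.eq_top_of_finrank_eq he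
      apply hadx0
      exact LinearMap.ker_eq_top.1 htop
    · intro x hx
      exact le_antisymm (hle x x0 hx) (hle x0 x hx0)

/-- one centraliser which is finite dimensional modulo the centre -/
theorem one_cent {L : Type v} [LieRing L] [LieAlgebra F L] (h : Per p F L) (x0 : L)
    (hfin : FiniteDimensional F ((LinearMap.ker (LieAlgebra.ad F L x0)).map
      (LieAlgebra.center F L).toSubmodule.mkQ)) : ∀ x y : L, ⁅x, y⁆ = 0 := by
  have hQ : Per p F (L ⧸ LieAlgebra.center F L) := per_quot h
  have hZ : Ctr0 (L ⧸ LieAlgebra.center F L) := ctr0_quot h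
  apply abelian_of_quot (F := F)
  by_contra hcon
  push Not at hcon
  obtain ⟨z, hz⟩ := hcon
  have hadz : LieAlgebra.ad F (L ⧸ LieAlgebra.center F L) z ≠ 0 := by
    intro h0
    apply hz
    apply hZ
    intro y
    have := LinearMap.congr_fun h0 y
    simpa using this
  have hF : Alg p F := alg_of hQ z hadz
  have hker : LinearMap.ker (LieAlgebra.ad F (L ⧸ LieAlgebra.center F L)
      (LieSubmodule.Quotient.mk x0)) ≤ (LinearMap.ker (LieAlgebra.ad F L x0)).map
      (LieAlgebra.center F L).toSubmodule.mkQ := by
    intro y hy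
    obtain ⟨y', rfl⟩ := LieSubmodule.Quotient.surjective_mk' (LieAlgebra.center F L) y
    refine ⟨y', ?_, rfl⟩
    have h1 : LieSubmodule.Quotient.mk (N := LieAlgebra.center F L) ⁅x0, y'⁆ = 0 := by
      have h2 := LinearMap.mem_ker.1 hy
      simpa using h2
    have h2 : ⁅x0, y'⁆ ∈ LieAlgebra.center F L := (LieSubmodule.Quotient.mk_eq_zero').1 h1
    have h3 : ⁅x0, y'⁆ = 0 := by
      apply kill h x0 y' 2
      rw [pow_two, Module.End.mul_apply, LieAlgebra.ad_apply, LieAlgebra.ad_apply]
      rw [← lie_skew, mem_center_iff'.1 h2 x0, neg_zero]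
    rw [SetLike.mem_coe, LinearMap.mem_ker, LieAlgebra.ad_apply]
    exact h3
  have : FiniteDimensional F (LinearMap.ker (LieAlgebra.ad F (L ⧸ LieAlgebra.center F L)
      (LieSubmodule.Quotient.mk x0))) := Submodule.finiteDimensional_of_le hker
  have hfd : FiniteDimensional F (L ⧸ LieAlgebra.center F L) :=
    bd hQ hF hZ (LieSubmodule.Quotient.mk x0) _ le_rfl
  exact hz (fin_zero _ _ hQ hZ hfd le_rfl z)

/-- the centraliser of a set, a subspace -/
def cent (F : Type u) [Field F] {L : Type v} [LieRing L] [LieAlgebra F L] (X : Set L) :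
    Submodule F L where
  carrier := {y | ∀ x ∈ X, ⁅x, y⁆ = 0}
  add_mem' := by
    intro a b ha hb x hx
    rw [lie_add, ha x hx, hb x hx, add_zero]
  zero_mem' := by
    intro x _
    simp
  smul_mem' := by
    intro c a ha x hx
    rw [lie_smul, ha x hx, smul_zero]

theorem mem_cent {L : Type v} [LieRing L] [LieAlgebra F L] {X : Set L} {y : L} :
    y ∈ cent F X ↔ ∀ x ∈ X, ⁅x, y⁆ = 0 := Iff.rfl

theorem fd_of_ker_le {V : Type*} {U : Type*} {W : Type*} [AddCommGroup V] [Module F V]
    [AddCommGroup U] [Module F U] [AddCommGroup W] [Module F W] (f : V →ₗ[F] U) (g : V →ₗ[F] W)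
    (hle : LinearMap.ker f ≤ LinearMap.ker g)
    (hf : FiniteDimensional F (LinearMap.range f)) : FiniteDimensional F (LinearMap.range g) := by
  have h1 : FiniteDimensional F (V ⧸ LinearMap.ker f) :=
    LinearEquiv.finiteDimensional f.quotKerEquivRange.symm
  have h2 : LinearMap.range ((LinearMap.ker f).liftQ g hle) = LinearMap.range g :=
    Submodule.range_liftQ _ _ _
  rw [← h2]
  infer_instance

theorem main_fin (q : ℕ) : ∀ (L : Type v) [LieRing L] [LieAlgebra F L], Per p F L →
    ∀ x : Fin q → L, (∀ i j, ⁅x i, x j⁆ = 0) →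
    FiniteDimensional F ((cent F (Set.range x)).map (LieAlgebra.center F L).toSubmodule.mkQ) →
    ∀ a b : L, ⁅a, b⁆ = 0 := by
  induction q with
  | zero =>
    intro L _ _ h x hx hfin
    refine one_cent h 0 ?_
    have e : cent F (Set.range x) = LinearMap.ker (LieAlgebra.ad F L (0 : L)) := by
      ext y
      simp [mem_cent]
    rw [← e]
    exact hfin
  | succ q ih =>
    intro L _ _ h x hx hfin
    have hmem : ∀ i : Fin q, x i.succ ∈ centL F (x 0) := fun i => mem_centL.2 (hx 0 i.succ)
    have hmem0 : ∀ y ∈ cent F (Set.range x), y ∈ centL F (x 0) := by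
      intro y hy
      exact mem_centL.2 (hy (x 0) ⟨0, rfl⟩)
    -- the centraliser of `x 0` is abelian
    have hH := ih (centL F (x 0)) (per_cent h (x 0)) (fun i => ⟨x i.succ, hmem i⟩)
      (by
        intro i j
        apply Subtype.ext
        exact hx i.succ j.succ)
      (by
        let S := cent F (Set.range x)
        let f : S →ₗ[F] (L ⧸ (LieAlgebra.center F L).toSubmodule) :=
          (LieAlgebra.center F L).toSubmodule.mkQ ∘ₗ S.subtype
        let ι : S →ₗ[F] centL F (x 0) :=
          { toFun := fun y => ⟨(y : L), hmem0 y.1 y.2⟩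
            map_add' := fun _ _ => rfl
            map_smul' := fun _ _ => rfl }
        let g : S →ₗ[F] (centL F (x 0) ⧸ (LieAlgebra.center F (centL F (x 0))).toSubmodule) :=
          (LieAlgebra.center F (centL F (x 0))).toSubmodule.mkQ ∘ₗ ι
        have hf : FiniteDimensional F (LinearMap.range f) := by
          have e : LinearMap.range f =
              (cent F (Set.range x)).map (LieAlgebra.center F L).toSubmodule.mkQ := by
            rw [LinearMap.range_comp, Submodule.range_subtype]
          rw [e]
          exact hfin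
        have hle : LinearMap.ker f ≤ LinearMap.ker g := by
          intro y hy
          have h1 : (y : L) ∈ LieAlgebra.center F L := by
            have := LinearMap.mem_ker.1 hy
            exact (Submodule.Quotient.mk_eq_zero _).1 this
          rw [LinearMap.mem_ker]
          refine (Submodule.Quotient.mk_eq_zero _).2 ?_
          change (ι y) ∈ LieAlgebra.center F (centL F (x 0))
          rw [mem_center_iff']
          intro z
          apply Subtype.ext
          exact mem_center_iff'.1 h1 z
        have hg := fd_of_ker_le f g hle hf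
        have e : (cent F (Set.range fun i : Fin q => (⟨x i.succ, hmem i⟩ : centL F (x 0)))).map
            (LieAlgebra.center F (centL F (x 0))).toSubmodule.mkQ ≤ LinearMap.range g := by
          rintro _ ⟨y, hy, rfl⟩
          refine ⟨⟨(y : L), ?_⟩, rfl⟩
          rintro _ ⟨i, rfl⟩
          induction i using Fin.cases with
          | zero => exact mem_centL.1 y.2
          | succ i =>
            have := hy _ ⟨i, rfl⟩
            exact congrArg Subtype.val this
        exact Submodule.finiteDimensional_of_le e)
    refine one_cent h (x 0) ?_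
    have hle : LinearMap.ker (LieAlgebra.ad F L (x 0)) ≤ cent F (Set.range x) := by
      intro y hy
      have hy' : ⁅x 0, y⁆ = 0 := LinearMap.mem_ker.1 hy
      rintro _ ⟨i, rfl⟩
      have := hH ⟨x i, mem_centL.2 (hx 0 i)⟩ ⟨y, mem_centL.2 hy'⟩
      exact congrArg Subtype.val this
    exact Submodule.finiteDimensional_of_le (Submodule.map_mono hle)

/-- commuting elements whose centraliser is finite dimensional modulo the centre -/
theorem main {L : Type v} [LieRing L] [LieAlgebra F L] (h : Per p F L) (X : Set L)
    (hX : ∀ x ∈ X, ∀ y ∈ X, ⁅x, y⁆ = 0)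
    (hfin : FiniteDimensional F ((cent F X).map (LieAlgebra.center F L).toSubmodule.mkQ)) :
    ∀ x y : L, ⁅x, y⁆ = 0 := by
  classical
  set Z := (LieAlgebra.center F L).toSubmodule with hZdef
  -- the span of the image of `X` is finite dimensional
  have hle : Submodule.span F (Z.mkQ '' X) ≤ (cent F X).map Z.mkQ := by
    rw [Submodule.span_le]
    rintro _ ⟨x, hx, rfl⟩
    exact ⟨x, fun y hy => hX y hy x hx, rfl⟩
  have hfd : FiniteDimensional F (Submodule.span F (Z.mkQ '' X)) :=
    Submodule.finiteDimensional_of_le hle
  have hfg : (Submodule.span F (Z.mkQ '' X)).FG := Module.Finite.iff_fg.1 hfd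
  obtain ⟨s', hs', hspan⟩ := (Submodule.fg_span_iff_fg_span_finset_subset _).1 hfg
  obtain ⟨s, hs, rfl⟩ := Finset.subset_set_image_iff.1 hs'
  have hce : cent F (Set.range fun i : Fin s.card => (s.equivFin.symm i : L)) ≤ cent F X := by
    intro y hy x hx
    have h1 : Z.mkQ x ∈ Submodule.span F (Z.mkQ '' X) := Submodule.subset_span ⟨x, hx, rfl⟩
    rw [hspan, Finset.coe_image, ← Submodule.map_span] at h1
    obtain ⟨w, hw, hwx⟩ := h1
    have h2 : x - w ∈ Z := by
      have : Z.mkQ (x - w) = 0 := by rw [map_sub, hwx, sub_self]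
      exact (Submodule.Quotient.mk_eq_zero _).1 this
    have h3 : ⁅x - w, y⁆ = 0 := mem_center_iff'.1 h2 y
    have h4 : ⁅w, y⁆ = 0 := by
      clear hwx h2 h3
      induction hw using Submodule.span_induction with
      | mem w hw =>
        refine hy w ⟨s.equivFin ⟨w, hw⟩, ?_⟩
        simp
      | zero => simp
      | add a b _ _ ha hb =>
        rw [add_lie, ha, hb, add_zero]
      | smul c a _ ha =>
        rw [smul_lie, ha, smul_zero]
    have h5 : ⁅x, y⁆ = ⁅x - w, y⁆ + ⁅w, y⁆ := by rw [← add_lie, sub_add_cancel]
    rw [h5, h3, h4, add_zero]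
  refine main_fin s.card L h (fun i => (s.equivFin.symm i : L)) ?_ ?_
  · intro i j
    exact hX _ (hs (s.equivFin.symm i).2) _ (hs (s.equivFin.symm j).2)
  · exact Submodule.finiteDimensional_of_le (Submodule.map_mono hce)

end PerE
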