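import Pool.Agent.Lib.PerE.Defs

set_option autoImplicit false

/-!
# Submodules of finite rank of `A ⊗ L` are Noetherian

`N ≤ A ⊗ L` such that independent families in `N` have at most `r` elements. Take a family `w : Fin ρ → N` of maximal size,
independent over `A`, and a basis `B` of `A ⊗ L` over `A` coming from a basis of `L`. The coordinates of the `w i` live in a
finite set `S`. For `x ∈ N` the family `x, w` is dependent, so `c • x ∈ span w` with `c ≠ 0`, so the coordinates of `x`
outside `S` are zero as well. Hence `N` embeds in `S → A`, which is Noetherian, and the increasing sequence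
`span (g 0, …, g (M - 1))` stabilizes.
-/

namespace PerE

open Module
open scoped TensorProduct

universe u v w

theorem noeth {F : Type u} [Field F] {L : Type v} [AddCommGroup L] [Module F L]
    {A : Type w} [CommRing A] [IsDomain A] [IsNoetherianRing A] [Algebra F A]
    (N : Submodule A (A ⊗[F] L)) (r : ℕ)
    (hN : ∀ (k : ℕ) (w : Fin k → A ⊗[F] L), (∀ i, w i ∈ N) → LinearIndependent A w → k ≤ r)
    (g : ℕ → A ⊗[F] L) (hg : ∀ i, g i ∈ N) :
    ∃ M : ℕ, g M ∈ Submodule.span A (Set.range fun i : Fin M => g i) := by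
  classical
  let b := Basis.ofVectorSpace F L
  let B : Basis (Basis.ofVectorSpaceIndex F L) A (A ⊗[F] L) := Algebra.TensorProduct.basis A b
  let P : ℕ → Prop := fun k =>
    ∃ w : Fin k → A ⊗[F] L, (∀ i, w i ∈ N) ∧ LinearIndependent A w
  have hP0 : P 0 := ⟨Fin.elim0, fun i => i.elim0, linearIndependent_empty_type⟩
  obtain ⟨ρ, ⟨w, hwN, hw⟩, hmax⟩ : ∃ ρ, P ρ ∧ ¬ P (ρ + 1) := by
    by_contra hcon
    push Not at hcon
    have hall : ∀ k, P k := by
      intro k
      induction k with
      | zero => exact hP0
      | succ k ih => exact hcon k ih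
    obtain ⟨w, hw1, hw2⟩ := hall (r + 1)
    have := hN (r + 1) w hw1 hw2
    omega
  let S : Finset (Basis.ofVectorSpaceIndex F L) :=
    Finset.univ.biUnion fun i : Fin ρ => (B.repr (w i)).support
  have hS : ∀ y ∈ Submodule.span A (Set.range w), ∀ j, j ∉ S → B.repr y j = 0 := by
    intro y hy j hj
    induction hy using Submodule.span_induction with
    | mem x hx =>
      obtain ⟨i, rfl⟩ := hx
      by_contra hne
      exact hj (Finset.mem_biUnion.mpr ⟨i, Finset.mem_univ i, Finsupp.mem_support_iff.mpr hne⟩)
    | zero => simp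
    | add x y _ _ hx hy => simp [hx, hy]
    | smul a x _ hx => simp [hx]
  have hNS : ∀ x ∈ N, ∀ j, j ∉ S → B.repr x j = 0 := by
    intro x hx j hj
    by_contra hne
    apply hmax
    refine ⟨Fin.cons x w, ?_, LinearIndependent.finCons' x w hw ?_⟩
    · intro i
      refine Fin.cases ?_ ?_ i
      · simpa using hx
      · intro i
        simpa using hwN i
    · intro c y hy hcy
      have h1 := congrArg (fun z => B.repr z j) hcy
      simp only [map_add, map_smul, Finsupp.add_apply, Finsupp.smul_apply, map_zero,
        Finsupp.zero_apply, hS y hy j hj, add_zero, smul_eq_mul, mul_eq_zero] at h1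
      rcases h1 with h1 | h1
      · exact h1
      · exact absurd h1 hne
  let φ : A ⊗[F] L →ₗ[A] (S → A) := LinearMap.pi fun j => B.coord j
  have hinj : ∀ x ∈ N, ∀ y ∈ N, φ x = φ y → x = y := by
    intro x hx y hy hxy
    apply B.ext_elem
    intro j
    by_cases hj : j ∈ S
    · have := congrFun hxy ⟨j, hj⟩
      simpa [φ] using this
    · rw [hNS x hx j hj, hNS y hy j hj]
  let f : ℕ →o Submodule A (S → A) :=
    ⟨fun M => (Submodule.span A (Set.range fun i : Fin M => g i)).map φ, by
      intro M M' hMM
      apply Submodule.map_mono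
      apply Submodule.span_mono
      rintro _ ⟨i, rfl⟩
      exact ⟨⟨i, lt_of_lt_of_le i.2 hMM⟩, rfl⟩⟩
  obtain ⟨n, hn⟩ := monotone_stabilizes_iff_noetherian.mpr
    (inferInstance : IsNoetherian A (S → A)) f
  refine ⟨n, ?_⟩
  have h1 : φ (g n) ∈ f n := by
    rw [hn (n + 1) (Nat.le_succ n)]
    exact Submodule.mem_map_of_mem (Submodule.subset_span ⟨⟨n, Nat.lt_succ_self n⟩, rfl⟩)
  obtain ⟨m, hm, hme⟩ := h1
  have hmN : m ∈ N := by
    have : Submodule.span A (Set.range fun i : Fin n => g i) ≤ N := by
      rw [Submodule.span_le]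
      rintro _ ⟨i, rfl⟩
      exact hg i
    exact this hm
  have := hinj m hmN (g n) (hg n) hme
  rw [← this]
  exact hm

end PerE
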