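import Pool.Agent.Lib.PerE.LemG
import Pool.Agent.Lib.PerE.Noeth
import Pool.Agent.Lib.PerE.Gauss
import Pool.Agent.Lib.PerE.Homog

set_option autoImplicit false

/-!
# One finite dimensional centraliser: a homogeneous monic relation for the generic element

`relation`: `x : Fin n → L`, `i0 : Fin n`, `ker (ad (x i0))` of dimension `≤ r`. `A = MvPolynomial (Fin n) F`, `D = ad (gen x)`, `ε` the evaluation at the
`i0`-th unit vector, `red ε (D (1 ⊗ y)) = ⁅x i0, y⁆`. `g` from `powers`, `N = ker D`; independent families in `N` have `≤ r` elements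
(`lemK`). `noeth`: `g M = ∑ i < M, ρ i • g i`, so `R = X ^ (p ^ M) - ∑ i, C (ρ i) * X ^ (p ^ i)` is monic and `aeval D R = ad (g M - ∑ …) = 0`.
`g 0, …, g r` are dependent: `∑ i ≤ r, λ i • g i = 0`, `P = ∑ i, C (λ i) * X ^ (p ^ i) ≠ 0`, `natDegree P ≤ p ^ r`, `aeval D P = 0`. `gauss` with
`B = End_A (A ⊗ L)` (torsion free: `A ⊗ L` is a free module over the domain `A`): a monic `Q` of degree `e ≤ p ^ r` with `aeval D Q = 0`; write it
as `D ^ e + ∑ j < e, q j • D ^ j = 0` and apply `homog`.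
-/

namespace PerE

open Module
open scoped TensorProduct

universe u v w

variable {p : ℕ} [Fact p.Prime] {F : Type u} [Field F] [CharP F p] {L : Type v} [LieRing L]
  [LieAlgebra F L]

/-- evaluation at the `i0`-th unit vector -/
private noncomputable def relEv (F : Type u) [Field F] {n : ℕ} (i0 : Fin n) :
    MvPolynomial (Fin n) F →ₐ[F] F :=
  MvPolynomial.aeval (Pi.single i0 (1 : F))

private theorem rel_red {n : ℕ} (x : Fin n → L) (i0 : Fin n) (y : L) :
    red (relEv F i0) (LieAlgebra.ad (MvPolynomial (Fin n) F) (MvPolynomial (Fin n) F ⊗[F] L) (gen x)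
      ((1 : MvPolynomial (Fin n) F) ⊗ₜ[F] y)) = LieAlgebra.ad F L (x i0) y := by
  rw [LieAlgebra.ad_apply, LieAlgebra.ad_apply, gen, sum_lie, map_sum]
  rw [Finset.sum_eq_single i0]
  · rw [LieAlgebra.ExtendScalars.bracket_tmul, red_tmul]
    simp [relEv]
  · intro i _ hi
    rw [LieAlgebra.ExtendScalars.bracket_tmul, red_tmul]
    simp [relEv, hi]
  · intro h
    exact absurd (Finset.mem_univ i0) h

omit [Fact p.Prime] in
/-- a sum `∑ c i X ^ (p ^ i)` -/
private theorem rel_coeff {A : Type u} [CommRing A] (hp : 1 < p) {M : ℕ} (c : Fin M → A) (i : Fin M) :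
    (∑ i : Fin M, Polynomial.C (c i) * Polynomial.X ^ (p ^ (i : ℕ))).coeff (p ^ (i : ℕ)) = c i := by
  rw [Polynomial.finsetSum_coeff, Finset.sum_eq_single i]
  · rw [Polynomial.coeff_C_mul_X_pow, if_pos rfl]
  · intro j _ hj
    rw [Polynomial.coeff_C_mul_X_pow, if_neg]
    intro h
    apply hj
    have := Nat.pow_right_injective hp h
    exact (Fin.ext this).symm
  · intro h
    exact absurd (Finset.mem_univ i) h

omit [Fact p.Prime] in
private theorem rel_degree {A : Type u} [CommRing A] (hp : 1 < p) {M : ℕ} (c : Fin M → A) :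
    (∑ i : Fin M, Polynomial.C (c i) * Polynomial.X ^ (p ^ (i : ℕ))).degree <
      ((p ^ M : ℕ) : WithBot ℕ) := by
  refine lt_of_le_of_lt (Polynomial.degree_sum_le _ _) ?_
  rw [Finset.sup_lt_iff (WithBot.bot_lt_coe _)]
  intro i _
  refine lt_of_le_of_lt (Polynomial.degree_C_mul_X_pow_le _ _) ?_
  exact_mod_cast Nat.pow_lt_pow_right hp i.2

omit [Fact p.Prime] in
private theorem rel_aeval {A : Type u} [CommRing A] {B : Type w} [Ring B] [Algebra A B] (D : B)
    {M : ℕ} (c : Fin M → A) :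
    Polynomial.aeval D (∑ i : Fin M, Polynomial.C (c i) * Polynomial.X ^ (p ^ (i : ℕ))) =
      ∑ i : Fin M, c i • D ^ (p ^ (i : ℕ)) := by
  rw [map_sum]
  refine Finset.sum_congr rfl fun i _ => ?_
  rw [map_mul, Polynomial.aeval_C, map_pow, Polynomial.aeval_X, Algebra.smul_def]

/-- the relation over any integrally closed Noetherian domain -/
private theorem rel_core (h : Per p F L) {A : Type u} [CommRing A] [IsDomain A]
    [IsNoetherianRing A] [IsIntegrallyClosed A] [Algebra F A] (X : A ⊗[F] L) (r : ℕ)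
    (hN : ∀ (k : ℕ) (w : Fin k → A ⊗[F] L),
      (∀ i, w i ∈ LinearMap.ker (LieAlgebra.ad A (A ⊗[F] L) X)) → LinearIndependent A w → k ≤ r) :
    ∃ Q : Polynomial A, Q.Monic ∧ Q.natDegree ≤ p ^ r ∧
      Polynomial.aeval (LieAlgebra.ad A (A ⊗[F] L) X) Q = 0 := by
  have hp : 1 < p := (Fact.out : p.Prime).one_lt
  obtain ⟨g, hg0, hgad, hgx⟩ := powers h A X
  have hgN : ∀ i, g i ∈ LinearMap.ker (LieAlgebra.ad A (A ⊗[F] L) X) := by
    intro i
    rw [LinearMap.mem_ker, LieAlgebra.ad_apply]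
    exact hgx i
  -- the monic relation
  obtain ⟨M, hM⟩ := noeth (LinearMap.ker (LieAlgebra.ad A (A ⊗[F] L) X)) r hN g hgN
  rw [Submodule.mem_span_range_iff_exists_fun] at hM
  obtain ⟨ρ, hρ⟩ := hM
  have hRm : (Polynomial.X ^ (p ^ M) -
      ∑ i : Fin M, Polynomial.C (ρ i) * Polynomial.X ^ (p ^ (i : ℕ))).Monic :=
    Polynomial.monic_X_pow_sub (rel_degree hp ρ)
  have hRD : Polynomial.aeval (LieAlgebra.ad A (A ⊗[F] L) X) (Polynomial.X ^ (p ^ M) -
      ∑ i : Fin M, Polynomial.C (ρ i) * Polynomial.X ^ (p ^ (i : ℕ))) = 0 := by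
    rw [map_sub, map_pow, Polynomial.aeval_X, rel_aeval, sub_eq_zero, ← hgad M, ← hρ, map_sum]
    refine Finset.sum_congr rfl fun i _ => ?_
    rw [map_smul, hgad i]
  -- the relation of small degree
  have hdep : ¬ LinearIndependent A fun i : Fin (r + 1) => g i := by
    intro hi
    have := hN (r + 1) (fun i : Fin (r + 1) => g i) (fun i => hgN i) hi
    omega
  rw [Fintype.not_linearIndependent_iff] at hdep
  obtain ⟨c, hc, i1, hi1⟩ := hdep
  have hP : (∑ i : Fin (r + 1), Polynomial.C (c i) * Polynomial.X ^ (p ^ (i : ℕ))) ≠ 0 := by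
    intro h0
    apply hi1
    rw [← rel_coeff hp c i1, h0, Polynomial.coeff_zero]
  have hPD : Polynomial.aeval (LieAlgebra.ad A (A ⊗[F] L) X)
      (∑ i : Fin (r + 1), Polynomial.C (c i) * Polynomial.X ^ (p ^ (i : ℕ))) = 0 := by
    rw [rel_aeval]
    have h1 : LieAlgebra.ad A (A ⊗[F] L) (∑ i : Fin (r + 1), c i • g i) = 0 := by
      rw [hc, map_zero]
    rw [map_sum] at h1
    rw [← h1]
    refine Finset.sum_congr rfl fun i _ => ?_
    rw [map_smul, hgad i]
  have hPdeg : (∑ i : Fin (r + 1), Polynomial.C (c i) *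
      Polynomial.X ^ (p ^ (i : ℕ))).natDegree ≤ p ^ r := by
    refine Polynomial.natDegree_sum_le_of_forall_le _ _ fun i _ => ?_
    refine (Polynomial.natDegree_C_mul_X_pow_le _ _).trans ?_
    exact Nat.pow_le_pow_right hp.le (Nat.lt_succ_iff.1 i.2)
  have htf : ∀ (a : A) (b : Module.End A (A ⊗[F] L)), a ≠ 0 → a • b = 0 → b = 0 := by
    intro a b ha hab
    exact (smul_eq_zero.1 hab).resolve_left ha
  obtain ⟨Q, hQm, hQdeg, hQD⟩ := gauss htf _ _ hRm hRD _ hP hPD
  exact ⟨Q, hQm, hQdeg.trans hPdeg, hQD⟩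

theorem relation (h : Per p F L) {n : ℕ} (x : Fin n → L) (i0 : Fin n) (r : ℕ)
    [FiniteDimensional F (LinearMap.ker (LieAlgebra.ad F L (x i0)))]
    (hr : finrank F (LinearMap.ker (LieAlgebra.ad F L (x i0))) ≤ r) :
    ∃ (e : ℕ) (c : Fin e → MvPolynomial (Fin n) F), e ≤ p ^ r ∧
      (∀ j, (c j).IsHomogeneous (e - j)) ∧
      (LieAlgebra.ad (MvPolynomial (Fin n) F) (MvPolynomial (Fin n) F ⊗[F] L) (gen x)) ^ e +
      ∑ j : Fin e, c j • (LieAlgebra.ad (MvPolynomial (Fin n) F)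
        (MvPolynomial (Fin n) F ⊗[F] L) (gen x)) ^ (j : ℕ) = 0 := by
  obtain ⟨Q, hQm, hQdeg, hQD⟩ := rel_core h (A := MvPolynomial (Fin n) F) (gen x) r (by
    intro k w hw hi
    exact lemK (relEv F i0) (LieAlgebra.ad (MvPolynomial (Fin n) F)
      (MvPolynomial (Fin n) F ⊗[F] L) (gen x)) (LieAlgebra.ad F L (x i0)) (rel_red x i0) r hr w
      (fun i => LinearMap.mem_ker.1 (hw i)) hi)
  have hQ : (LieAlgebra.ad (MvPolynomial (Fin n) F) (MvPolynomial (Fin n) F ⊗[F] L) (gen x)) ^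
      Q.natDegree + ∑ j : Fin Q.natDegree, Q.coeff j • (LieAlgebra.ad (MvPolynomial (Fin n) F)
        (MvPolynomial (Fin n) F ⊗[F] L) (gen x)) ^ (j : ℕ) = 0 := by
    rw [← hQD, Polynomial.aeval_eq_sum_range, Finset.sum_range_succ, hQm.coeff_natDegree,
      one_smul, add_comm, Finset.sum_range]
  obtain ⟨c', hc', hc''⟩ := homog x Q.natDegree (fun j => Q.coeff j) hQ
  exact ⟨Q.natDegree, c', hQdeg, hc', hc''⟩

end PerE
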